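import Mathlib
import Pool.Agent.Lib.MP_8f66f0_al_Aut.Out
import Pool.Agent.Lib.MP_8f66f0_al_Mixed.Defs

/-! Definition of the class of groups in the theorem on finite-dimensional representations, with
nilpotent Euler classes. -/

set_option autoImplicit false

namespace Pool.Agent.Lib.MP_8f66f0_al_Nil

open Pool.Agent.Lib.MP_8f66f0_al_Mixed

/-- `c` has an integral mixed cocycle which does not vanish at `(c; [])`: the Euler class of the
extension of the centralizer of `c` modulo `⟨c⟩` by `⟨c⟩` is nilpotent up to torsion. -/
def MixDet {Γ : Type*} [Group Γ] (c : Γ) : Prop :=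
  ∃ (k : ℕ) (b : Γ → List Γ → ℤ), IsMixed k b ∧ b c [] ≠ 0

/-- `c` has infinite order in some representation over a domain of characteristic zero in which `p` is
not a unit. -/
def LinDet.{v, u} (p : ℕ) {Γ : Type u} [Group Γ] (c : Γ) : Prop :=
  ∃ (R : Type v) (_ : CommRing R) (_ : IsDomain R) (_ : CharZero R) (m : ℕ)
    (ρ : Γ →* Matrix.GeneralLinearGroup (Fin m) R),
    ¬ IsUnit (p : R) ∧ ∀ n : ℕ, 0 < n → ρ c ^ n ≠ 1

/-- For all large primes `l` the only `l`-th root of `c ^ l` is `c`. -/
def RootU {Γ : Type*} [Group Γ] (c : Γ) : Prop :=
  ∃ N : ℕ, ∀ l : ℕ, l.Prime → N < l → ∀ x : Γ, x ^ l = c ^ l → x = c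

/-- The smallest class of groups which contains

* the groups which embed in a general linear group over some commutative ring,
* the holomorphs `F ⋊ Aut F` of the finitely generated groups `F` which are residually
  unitriangular over the integers (for instance of free groups of finite rank),
* the outer automorphism groups of the free groups of finite rank,
* the groups in which roots of large prime order are unique (in the sense of `RootU`) and in which, for
  all large primes `p`, each element `c` of infinite order has a mixed cocycle `b` with
  `b (c; []) ≠ 0`, or infinite order in some representation over a domain of characteristic zero in which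
  `p` is not a unit,

and is closed under subgroups (and isomorphic groups), finite direct products, finite index
overgroups and directed unions. -/
inductive NilClass.{v, u} : ∀ (G : Type u) [Group G], Prop
  | lin (G : Type u) [Group G] (R : Type v) [CommRing R] (m : ℕ)
      (ρ : G →* Matrix.GeneralLinearGroup (Fin m) R) (hρ : Function.Injective ρ) : NilClass G
  | hol (F : Type u) [Group F] [Group.FG F] (hF : Pool.Agent.Lib.MP_8f66f0_al_Aut.ResUnip F) :
      NilClass (F ⋊[MonoidHom.id (MulAut F)] MulAut F)
  | out (ι : Type u) [Finite ι] :
      NilClass (Pool.Agent.Lib.MP_8f66f0_al_Aut.OutAut (FreeGroup ι))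
  | good (G : Type u) [Group G] (hG : ∀ c : G, RootU c) (N : ℕ)
      (hd : ∀ p : ℕ, p.Prime → N < p → ∀ c : G, (∀ n : ℕ, 0 < n → c ^ n ≠ 1) →
        MixDet c ∨ LinDet.{v} p c) : NilClass G
  | sub (G K : Type u) [Group G] [Group K] (φ : K →* G) (hφ : Function.Injective φ)
      (hG : NilClass G) : NilClass K
  | prod (G K : Type u) [Group G] [Group K] (hG : NilClass G) (hK : NilClass K) :
      NilClass (G × K)
  | virt (G : Type u) [Group G] (K : Subgroup G) [K.FiniteIndex] (hK : NilClass K) : NilClass G
  | loc (G : Type u) [Group G] (h : ∀ H : Subgroup G, H.FG → NilClass H) : NilClass G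

end Pool.Agent.Lib.MP_8f66f0_al_Nil
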