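import Mathlib
import Pool.Agent.Lib.MP_8f66f0_al_Nil.ClassDefs
import Pool.Agent.Lib.MP_8f66f0_al_Wreath.WDet

namespace Pool.Agent.Lib.MP_8f66f0_al_Wall
end Pool.Agent.Lib.MP_8f66f0_al_Wall

/-! # Closure properties of MixDet


PROOFS. `comap`: `fun c u => b (φ c) (u.map φ)`.
`of_pow`: `b' (v; u) = m ^ (k - |u|/2) * Σ b (v^m; v^(i_1) u_1, .., v^(i_r) u_r)`, the sum over all
`i_1, .., i_r < m` (define it by recursion on `u`: `tw m v F [] = F []`,
`tw m v F (a :: u) = Σ_{i < m} tw m v (fun w => F (v ^ i * a :: w)) u`). `b' (v; []) = m^k b (v^m; [])`. Mixed: the sum over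
`i_0 < m` of `b (v^m; v^(i_0) v a, ..)` is that of `b (v^m; v^(i_0) a, ..)` plus
`b (v^m; v^m a, ..) - b (v^m; a, ..)` = minus the coboundary, and in `Σ b (v^m; (v^i u) without u_j)` the index
`i_j` is free, which gives the factor `m` (compare `lift_mixed` in Mixed/RootA.lean for the exponents and
the cases `|u|` even, `|u| > 2k`). `diag`: exchange the two summation indices, `2 S = 0`.
`rwp`: restrict `b` to the class of `c` (`final_cls` in Mixed/Final.lean); then
`b' (w; u) = Σ_{y : C} b (w.left y; u.map (fun v => v.left y))` if `w.right = 1`, else `0`. Equivariance: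
`(v w v⁻¹).left (v.right y) = v.left (v.right y) * w.left y * (v.left (v.right y))⁻¹` and
`(v u).left (v.right y) = v.left (v.right y) * u.left y` (`rwp_conj_left`, `rwp_mul_left'` in Wreath/WDet.lean).
`b' (w; []) = #{y : w.left y conjugate to c} * b c []`. For `h` itself use `of_pow` with `m = |C|`. -/

set_option autoImplicit false
set_option linter.unusedSectionVars false
set_option linter.unusedVariables false

namespace Pool.Agent.Lib.MP_8f66f0_al_Nil

open Pool.Agent.Lib.MP_8f66f0_al_Plus Pool.Agent.Lib.MP_8f66f0_al_Wall
open Pool.Agent.Lib.MP_8f66f0_al_FinQ Pool.Agent.Lib.MP_8f66f0_al_Uni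
  Pool.Agent.Lib.MP_8f66f0_al_ChernS Pool.Agent.Lib.MP_8f66f0_al_Mixed


section closureM_tw

variable {Γ : Type*} [Group Γ]

/-- The sum of `F (v^(i_1) u_1, .., v^(i_r) u_r)` over all `i_1, .., i_r < m`. -/
def closureM_tw (m : ℕ) (v : Γ) : (List Γ → ℤ) → List Γ → ℤ
  | F, [] => F []
  | F, a :: u => ∑ i ∈ Finset.range m, closureM_tw m v (fun w => F (v ^ i * a :: w)) u

theorem closureM_tw_nil (m : ℕ) (v : Γ) (F : List Γ → ℤ) : closureM_tw m v F [] = F [] := rfl

theorem closureM_tw_cons (m : ℕ) (v : Γ) (F : List Γ → ℤ) (a : Γ) (u : List Γ) :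
    closureM_tw m v F (a :: u) =
      ∑ i ∈ Finset.range m, closureM_tw m v (fun w => F (v ^ i * a :: w)) u := rfl

theorem closureM_tw_congr (m : ℕ) (v : Γ) (u : List Γ) : ∀ (F G : List Γ → ℤ),
    (∀ w, w.length = u.length → F w = G w) → closureM_tw m v F u = closureM_tw m v G u := by
  induction u with
  | nil => intro F G h; exact h [] rfl
  | cons a u ih =>
    intro F G h
    rw [closureM_tw_cons, closureM_tw_cons]
    refine Finset.sum_congr rfl fun i _ => ih _ _ fun w hw => h _ ?_
    rw [List.length_cons, List.length_cons, hw]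

theorem closureM_tw_sum (m : ℕ) (v : Γ) {ι : Type*} (s : Finset ι) (u : List Γ) :
    ∀ (F : ι → List Γ → ℤ), closureM_tw m v (fun w => ∑ j ∈ s, F j w) u =
      ∑ j ∈ s, closureM_tw m v (F j) u := by
  induction u with
  | nil => intro F; rfl
  | cons a u ih =>
    intro F
    rw [closureM_tw_cons]
    simp only [closureM_tw_cons]
    rw [Finset.sum_comm]
    refine Finset.sum_congr rfl fun i _ => ?_
    exact ih (fun j w => F j (v ^ i * a :: w))

theorem closureM_tw_smul (m : ℕ) (v : Γ) (t : ℤ) (u : List Γ) : ∀ (F : List Γ → ℤ),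
    closureM_tw m v (fun w => t * F w) u = t * closureM_tw m v F u := by
  induction u with
  | nil => intro F; rfl
  | cons a u ih =>
    intro F
    rw [closureM_tw_cons, closureM_tw_cons, Finset.mul_sum]
    refine Finset.sum_congr rfl fun i _ => ?_
    exact ih (fun w => F (v ^ i * a :: w))

theorem closureM_tw_zero (m : ℕ) (v : Γ) (u : List Γ) (F : List Γ → ℤ)
    (h : ∀ w, w.length = u.length → F w = 0) : closureM_tw m v F u = 0 := by
  rw [closureM_tw_congr m v u F (fun w => 0 * F w) (fun w hw => by rw [h w hw, zero_mul]),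
    closureM_tw_smul, zero_mul]

theorem closureM_tw_sub (m : ℕ) (v : Γ) (u : List Γ) (F G : List Γ → ℤ) :
    closureM_tw m v (fun w => F w - G w) u = closureM_tw m v F u - closureM_tw m v G u := by
  have h := closureM_tw_sum m v (Finset.univ : Finset Bool) u
    (fun j w => cond j (F w) (-1 * G w))
  simp only [Fintype.sum_bool, cond_true, cond_false] at h
  rw [closureM_tw_smul] at h
  rw [closureM_tw_congr m v u (fun w => F w - G w) (fun w => F w + -1 * G w)
    (fun w _ => by ring), h]
  ring

theorem closureM_tw_append (m : ℕ) (v : Γ) (u w : List Γ) : ∀ (F : List Γ → ℤ),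
    closureM_tw m v F (u ++ w) =
      closureM_tw m v (fun x => closureM_tw m v (fun y => F (x ++ y)) w) u := by
  induction u with
  | nil => intro F; rfl
  | cons a u ih =>
    intro F
    rw [List.cons_append, closureM_tw_cons, closureM_tw_cons]
    refine Finset.sum_congr rfl fun i _ => ?_
    rw [ih]
    rfl

theorem closureM_tw_conj (m : ℕ) (x v : Γ) (u : List Γ) : ∀ (F : List Γ → ℤ),
    closureM_tw m (x * v * x⁻¹) F (u.map (x * ·)) =
      closureM_tw m v (fun w => F (w.map (x * ·))) u := by
  induction u with
  | nil => intro F; rfl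
  | cons a u ih =>
    intro F
    rw [List.map_cons, closureM_tw_cons, closureM_tw_cons]
    refine Finset.sum_congr rfl fun i _ => ?_
    rw [ih]
    have e : (x * v * x⁻¹) ^ i * (x * a) = x * (v ^ i * a) := by
      rw [conj_pow]
      group
    rw [e]
    rfl

theorem closureM_tw_erase (m : ℕ) (v : Γ) (u : List Γ) : ∀ (F : List Γ → ℤ) (i : ℕ),
    i < u.length → closureM_tw m v (fun w => F (w.eraseIdx i)) u =
      m * closureM_tw m v F (u.eraseIdx i) := by
  induction u with
  | nil => intro F i hi; simp at hi
  | cons a u ih =>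
    intro F i hi
    rw [closureM_tw_cons]
    cases i with
    | zero =>
      simp only [List.eraseIdx_cons_zero]
      rw [Finset.sum_const, Finset.card_range, nsmul_eq_mul]
    | succ i =>
      simp only [List.eraseIdx_cons_succ]
      rw [closureM_tw_cons, Finset.mul_sum]
      refine Finset.sum_congr rfl fun j _ => ?_
      exact ih (fun w => F (v ^ j * a :: w)) i (by simpa using hi)

theorem closureM_tw_swap (m : ℕ) (v : Γ) (F : List Γ → ℤ) (a a' : Γ) (w : List Γ)
    (h : ∀ (c c' : Γ) (y : List Γ), F (c :: c' :: y) = - F (c' :: c :: y)) :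
    closureM_tw m v F (a :: a' :: w) = - closureM_tw m v F (a' :: a :: w) := by
  simp only [closureM_tw_cons]
  rw [Finset.sum_comm, ← Finset.sum_neg_distrib]
  refine Finset.sum_congr rfl fun i _ => ?_
  rw [← Finset.sum_neg_distrib]
  refine Finset.sum_congr rfl fun j _ => ?_
  have h1 := closureM_tw_smul m v (-1) w (fun y => F (v ^ i * a' :: v ^ j * a :: y))
  have h2 : closureM_tw m v (fun y => F (v ^ j * a :: v ^ i * a' :: y)) w =
      closureM_tw m v (fun y => -1 * F (v ^ i * a' :: v ^ j * a :: y)) w :=
    closureM_tw_congr m v w _ _ fun y _ => by rw [h]; ring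
  rw [h2, h1]
  ring

/-- The mixed cocycle of the powers. -/
def closureM_pow (k m : ℕ) (b : Γ → List Γ → ℤ) (v : Γ) (u : List Γ) : ℤ :=
  (m : ℤ) ^ (k - u.length / 2) * closureM_tw m v (b (v ^ m)) u

theorem closureM_pow_swap {k m : ℕ} {b : Γ → List Γ → ℤ} (hb : IsMixed k b) (v : Γ)
    (u : List Γ) (a a' : Γ) (w : List Γ) :
    closureM_tw m v (b (v ^ m)) (u ++ a :: a' :: w) =
      - closureM_tw m v (b (v ^ m)) (u ++ a' :: a :: w) := by
  rw [closureM_tw_append, closureM_tw_append]
  have h1 := closureM_tw_smul m v (-1) u
    (fun x => closureM_tw m v (fun y => b (v ^ m) (x ++ y)) (a' :: a :: w))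
  rw [closureM_tw_congr m v u (fun x => closureM_tw m v (fun y => b (v ^ m) (x ++ y)) (a :: a' :: w))
    (fun x => -1 * closureM_tw m v (fun y => b (v ^ m) (x ++ y)) (a' :: a :: w))
    (fun x _ => by
      rw [closureM_tw_swap m v _ a a' w fun c c' y => hb.alternating _ x c c' y]
      ring), h1]
  ring

theorem closureM_pow_mixed {k m : ℕ} (hm : 0 < m) {b : Γ → List Γ → ℤ} (hb : IsMixed k b) :
    IsMixed k (closureM_pow k m b) where
  len v u hu := by
    unfold closureM_pow
    rw [closureM_tw_zero m v u _ fun w hw => hb.len _ w (by rw [hw]; exact hu), mul_zero]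
  odd v u hu := by
    unfold closureM_pow
    rw [closureM_tw_zero m v u _ fun w hw => hb.odd _ w (by rw [hw]; exact hu), mul_zero]
  equivariant x v u := by
    unfold closureM_pow
    rw [closureM_tw_conj, List.length_map]
    congr 1
    refine closureM_tw_congr m v u _ _ fun w _ => ?_
    rw [conj_pow, hb.equivariant]
  alternating v u a a' w := by
    unfold closureM_pow
    rw [closureM_pow_swap hb]
    simp only [List.length_append, List.length_cons]
    ring
  diag v u a w := by
    unfold closureM_pow
    have h := closureM_pow_swap (m := m) hb v u a a w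
    have h2 : closureM_tw m v (b (v ^ m)) (u ++ a :: a :: w) = 0 := by omega
    rw [h2, mul_zero]
  mixed v a u := by
    set F := b (v ^ m) with hF
    have key : closureM_tw m v F (v * a :: u) = closureM_tw m v F (a :: u) -
        m * ∑ i ∈ Finset.range u.length, (-1) ^ i * closureM_tw m v F (u.eraseIdx i) := by
      have e0 : ∑ i ∈ Finset.range m, closureM_tw m v (fun w => F (v ^ (i + 1) * a :: w)) u =
          ∑ i ∈ Finset.range m, closureM_tw m v (fun w => F (v ^ i * a :: w)) u +
            closureM_tw m v (fun w => F (v ^ m * a :: w)) u -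
            closureM_tw m v (fun w => F (v ^ 0 * a :: w)) u := by
        have e1 := Finset.sum_range_succ
          (fun i => closureM_tw m v (fun w => F (v ^ i * a :: w)) u) m
        have e2 := Finset.sum_range_succ'
          (fun i => closureM_tw m v (fun w => F (v ^ i * a :: w)) u) m
        linarith
      have e3 : closureM_tw m v (fun w => F (v ^ m * a :: w)) u =
          closureM_tw m v (fun w => F (v ^ 0 * a :: w)) u -
            closureM_tw m v (fun w => ∑ i ∈ Finset.range u.length, (-1) ^ i * F (w.eraseIdx i)) u := by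
        rw [← closureM_tw_sub]
        refine closureM_tw_congr m v u _ _ fun w hw => ?_
        have h := hb.mixed (v ^ m) a w
        rw [← hF, hw] at h
        rw [h, pow_zero, one_mul]
      have e4 : closureM_tw m v (fun w => ∑ i ∈ Finset.range u.length, (-1) ^ i * F (w.eraseIdx i)) u =
          m * ∑ i ∈ Finset.range u.length, (-1) ^ i * closureM_tw m v F (u.eraseIdx i) := by
        rw [closureM_tw_sum m v (Finset.range u.length) u
          (fun i w => (-1) ^ i * F (w.eraseIdx i)), Finset.mul_sum]
        refine Finset.sum_congr rfl fun i hi => ?_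
        rw [closureM_tw_smul, closureM_tw_erase m v u F i (Finset.mem_range.1 hi)]
        ring
      have e5 : closureM_tw m v F (v * a :: u) =
          ∑ i ∈ Finset.range m, closureM_tw m v (fun w => F (v ^ (i + 1) * a :: w)) u := by
        rw [closureM_tw_cons]
        refine Finset.sum_congr rfl fun i _ => ?_
        have : v ^ i * (v * a) = v ^ (i + 1) * a := by rw [pow_succ, mul_assoc]
        rw [this]
      rw [e5, e0, e3, e4, closureM_tw_cons]
      ring
    have h1 : ∑ i ∈ Finset.range u.length, (-1) ^ i * closureM_pow k m b v (u.eraseIdx i) =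
        (m : ℤ) ^ (k - (u.length - 1) / 2) *
          ∑ i ∈ Finset.range u.length, (-1) ^ i * closureM_tw m v F (u.eraseIdx i) := by
      rw [Finset.mul_sum]
      refine Finset.sum_congr rfl fun i hi => ?_
      unfold closureM_pow
      rw [List.length_eraseIdx_of_lt (Finset.mem_range.1 hi), ← hF]
      ring
    rw [h1]
    unfold closureM_pow
    rw [← hF, List.length_cons, List.length_cons]
    by_cases hodd : Odd u.length
    · by_cases hlt : u.length < 2 * k
      · obtain ⟨n, hn⟩ := hodd
        rw [key]
        have h2 : k - (u.length - 1) / 2 = (k - (u.length + 1) / 2) + 1 := by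
          omega
        rw [h2, pow_succ]
        ring
      · have z1 : closureM_tw m v F (v * a :: u) = 0 :=
          closureM_tw_zero m v _ _ fun w hw => hb.len _ w (by rw [hw, List.length_cons]; omega)
        have z2 : closureM_tw m v F (a :: u) = 0 :=
          closureM_tw_zero m v _ _ fun w hw => hb.len _ w (by rw [hw, List.length_cons]; omega)
        rw [z1, z2, zero_sub] at key
        have h3 := neg_eq_zero.1 key.symm
        have hm0 : (m : ℤ) ≠ 0 := by exact_mod_cast hm.ne'
        have h4 := (mul_eq_zero.1 h3).resolve_left hm0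
        rw [z1, z2, h4]
        ring
    · have z1 : closureM_tw m v F (v * a :: u) = 0 := by
        refine closureM_tw_zero m v _ _ fun w hw => hb.odd _ w ?_
        rw [hw, List.length_cons]
        rw [Nat.not_odd_iff_even] at hodd
        exact hodd.add_one
      have z2 : closureM_tw m v F (a :: u) = 0 := by
        refine closureM_tw_zero m v _ _ fun w hw => hb.odd _ w ?_
        rw [hw, List.length_cons]
        rw [Nat.not_odd_iff_even] at hodd
        exact hodd.add_one
      have h4 : ∑ i ∈ Finset.range u.length, (-1) ^ i * closureM_tw m v F (u.eraseIdx i) = 0 := by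
        refine Finset.sum_eq_zero fun i hi => ?_
        have hi' := Finset.mem_range.1 hi
        rw [closureM_tw_zero m v _ _ fun w hw => hb.odd _ w ?_, mul_zero]
        rw [hw, List.length_eraseIdx_of_lt hi']
        rw [Nat.not_odd_iff_even] at hodd
        obtain ⟨n, hn⟩ := hodd
        exact ⟨n - 1, by omega⟩
      rw [z1, z2, h4]
      ring

open Classical in
/-- Restriction to a conjugacy class. -/
noncomputable def closureM_cls (c0 : Γ) (b : Γ → List Γ → ℤ) (c : Γ) (u : List Γ) : ℤ :=
  if IsConj c0 c then b c u else 0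

theorem closureM_cls_mixed {k : ℕ} {b : Γ → List Γ → ℤ} (hb : IsMixed k b) (c0 : Γ) :
    IsMixed k (closureM_cls c0 b) where
  len c u hu := by
    unfold closureM_cls
    split_ifs
    · exact hb.len c u hu
    · rfl
  odd c u hu := by
    unfold closureM_cls
    split_ifs
    · exact hb.odd c u hu
    · rfl
  equivariant x c u := by
    have h1 : IsConj c0 (x * c * x⁻¹) ↔ IsConj c0 c := by
      have h2 : IsConj c (x * c * x⁻¹) := isConj_iff.2 ⟨x, rfl⟩
      exact ⟨fun h => h.trans h2.symm, fun h => h.trans h2⟩
    unfold closureM_cls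
    by_cases h : IsConj c0 c
    · rw [if_pos (h1.2 h), if_pos h, hb.equivariant]
    · rw [if_neg (fun h2 => h (h1.1 h2)), if_neg h]
  alternating c u a a' v := by
    unfold closureM_cls
    split_ifs
    · exact hb.alternating c u a a' v
    · rw [neg_zero]
  diag c u a v := by
    unfold closureM_cls
    split_ifs
    · exact hb.diag c u a v
    · rfl
  mixed c a u := by
    unfold closureM_cls
    split_ifs
    · exact hb.mixed c a u
    · simp

end closureM_tw

section closureM_rwp

open Pool.Agent.Lib.MP_8f66f0_al_Wreath

variable {Γ : Type*} [Group Γ] {C : Type*} [Group C] [Fintype C]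

open Classical in
/-- The mixed cocycle of the wreath product. -/
noncomputable def closureM_rwp (b : Γ → List Γ → ℤ) (w : RegularWreathProduct Γ C)
    (u : List (RegularWreathProduct Γ C)) : ℤ :=
  if w.right = 1 then ∑ y : C, b (w.left y) (u.map fun v => v.left y) else 0

theorem closureM_rwp_mixed {k : ℕ} {b : Γ → List Γ → ℤ} (hb : IsMixed k b) :
    IsMixed k (closureM_rwp (C := C) b) where
  len w u hu := by
    unfold closureM_rwp
    split_ifs
    · exact Finset.sum_eq_zero fun y _ => hb.len _ _ (by rw [List.length_map]; exact hu)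
    · rfl
  odd w u hu := by
    unfold closureM_rwp
    split_ifs
    · exact Finset.sum_eq_zero fun y _ => hb.odd _ _ (by rw [List.length_map]; exact hu)
    · rfl
  equivariant v w u := by
    have h1 : (v * w * v⁻¹).right = 1 ↔ w.right = 1 := by
      rw [RegularWreathProduct.mul_right, RegularWreathProduct.mul_right,
        RegularWreathProduct.inv_right, mul_inv_eq_one]
      constructor
      · intro h
        exact mul_eq_left.1 h
      · intro h
        rw [h, mul_one]
    unfold closureM_rwp
    by_cases h : w.right = 1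
    · rw [if_pos h, if_pos (h1.2 h)]
      refine (Fintype.sum_equiv (Equiv.mulLeft v.right) _ _ fun y => ?_).symm
      rw [Equiv.coe_mulLeft, rwp_conj_left v w h]
      rw [← hb.equivariant (v.left (v.right * y)), List.map_map, List.map_map]
      congr 1
      refine List.map_congr_left fun a _ => ?_
      exact (rwp_mul_left' v a y).symm
    · rw [if_neg h, if_neg (fun h2 => h (h1.1 h2))]
  alternating w u a a' v := by
    unfold closureM_rwp
    split_ifs
    · rw [← Finset.sum_neg_distrib]
      refine Finset.sum_congr rfl fun y _ => ?_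
      simp only [List.map_append, List.map_cons]
      exact hb.alternating _ _ _ _ _
    · rw [neg_zero]
  diag w u a v := by
    unfold closureM_rwp
    split_ifs
    · refine Finset.sum_eq_zero fun y _ => ?_
      simp only [List.map_append, List.map_cons]
      exact hb.diag _ _ _ _
    · rfl
  mixed w a u := by
    unfold closureM_rwp
    split_ifs with h
    · simp only [Finset.mul_sum]
      rw [Finset.sum_comm, ← Finset.sum_sub_distrib]
      refine Finset.sum_congr rfl fun y _ => ?_
      simp only [List.map_cons]
      rw [rwp_mul_left, h, inv_one, one_mul, hb.mixed, List.length_map]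
      congr 1
      refine Finset.sum_congr rfl fun i _ => ?_
      rw [List.eraseIdx_map]
    · simp

end closureM_rwp

section ClosureM

variable {Γ Γ' : Type*} [Group Γ] [Group Γ']

theorem MixDet.comap (φ : Γ →* Γ') {c : Γ} (h : MixDet (φ c)) : MixDet c := by
  obtain ⟨k, b, hb, h0⟩ := h
  refine ⟨k, fun c u => b (φ c) (u.map φ), ?_, h0⟩
  refine
    { len := fun c u hu => hb.len _ _ (by rw [List.length_map]; exact hu)
      odd := fun c u hu => hb.odd _ _ (by rw [List.length_map]; exact hu)
      equivariant := fun x c u => ?_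
      alternating := fun c u a a' v => ?_
      diag := fun c u a v => ?_
      mixed := fun c a u => ?_ }
  · rw [← hb.equivariant (φ x) (φ c), map_mul, map_mul, map_inv, List.map_map, List.map_map]
    congr 1
    refine List.map_congr_left fun a _ => ?_
    exact map_mul φ x a
  · simp only [List.map_append, List.map_cons]
    exact hb.alternating _ _ _ _ _
  · simp only [List.map_append, List.map_cons]
    exact hb.diag _ _ _ _
  · simp only [List.map_cons, map_mul]
    rw [hb.mixed, List.length_map]
    congr 1
    refine Finset.sum_congr rfl fun i _ => ?_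
    rw [List.eraseIdx_map]

theorem MixDet.of_pow {c : Γ} {m : ℕ} (hm : 0 < m) (h : MixDet (c ^ m)) : MixDet c := by
  obtain ⟨k, b, hb, h0⟩ := h
  refine ⟨k, closureM_pow k m b, closureM_pow_mixed hm hb, ?_⟩
  unfold closureM_pow
  rw [closureM_tw_nil]
  exact mul_ne_zero (pow_ne_zero _ (by exact_mod_cast hm.ne')) h0

theorem mixDet_rwp {C : Type*} [Group C] [Fintype C] {h : RegularWreathProduct Γ C} {x : C}
    (hx : MixDet ((h ^ Fintype.card C).left x)) : MixDet h := by
  classical
  obtain ⟨k, b, hb, h0⟩ := hx
  refine MixDet.of_pow (m := Fintype.card C) Fintype.card_pos ?_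
  set w := h ^ Fintype.card C with hw
  have hr : w.right = 1 := Pool.Agent.Lib.MP_8f66f0_al_Wreath.rwp_pow_card_right h
  refine ⟨k, closureM_rwp (closureM_cls (w.left x) b),
    closureM_rwp_mixed (closureM_cls_mixed hb (w.left x)), ?_⟩
  have h1 : closureM_rwp (closureM_cls (w.left x) b) w [] =
      ((Finset.univ.filter fun y : C => IsConj (w.left x) (w.left y)).card : ℤ) *
        b (w.left x) [] := by
    unfold closureM_rwp
    rw [if_pos hr, ← nsmul_eq_mul, ← Finset.sum_const, Finset.sum_filter]
    refine Finset.sum_congr rfl fun y _ => ?_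
    unfold closureM_cls
    split_ifs with hc
    · obtain ⟨g, hg⟩ := isConj_iff.1 hc
      rw [← hg, List.map_nil]
      have := hb.equivariant g (w.left x) []
      rwa [List.map_nil] at this
    · rfl
  rw [h1]
  refine mul_ne_zero ?_ h0
  rw [Nat.cast_ne_zero, Finset.card_ne_zero]
  exact ⟨x, Finset.mem_filter.2 ⟨Finset.mem_univ _, IsConj.refl _⟩⟩

end ClosureM

end Pool.Agent.Lib.MP_8f66f0_al_Nil
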