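import Mathlib
import Pool.Agent.Lib.MP_8f66f0_al_Nil.ClassDefs
import Pool.Agent.Lib.MP_8f66f0_al_Wreath.WDet

namespace Pool.Agent.Lib.MP_8f66f0_al_Wall
end Pool.Agent.Lib.MP_8f66f0_al_Wall

/-! # Closure properties of RootU

PROOFS. `rootU_rwp`: `x^l = h^l` gives `(x^m)^l = (h^m)^l`, `m = |C|`, `x^m`, `h^m` in the base, so their coordinates
agree for large `l`, `x^m = h^m`, and `x = h` as `l` and `m` are coprime (`powerSep_of_normal` in
Wreath/DetClass.lean has the same argument). -/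

set_option autoImplicit false
set_option linter.unusedSectionVars false
set_option linter.unusedVariables false

namespace Pool.Agent.Lib.MP_8f66f0_al_Nil

open Pool.Agent.Lib.MP_8f66f0_al_Plus Pool.Agent.Lib.MP_8f66f0_al_Wall
open Pool.Agent.Lib.MP_8f66f0_al_FinQ Pool.Agent.Lib.MP_8f66f0_al_Uni
  Pool.Agent.Lib.MP_8f66f0_al_ChernS Pool.Agent.Lib.MP_8f66f0_al_Mixed


section ClosureR

variable {Γ Γ' : Type*} [Group Γ] [Group Γ']

lemma closureR_coprime {x y : Γ} {l k : ℕ} (hcop : Nat.Coprime l k) (hl : x ^ l = y ^ l)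
    (hk : x ^ k = y ^ k) : x = y := by
  have hb : (1 : ℤ) = l * Nat.gcdA l k + k * Nat.gcdB l k := by
    have := Nat.gcd_eq_gcd_ab l k
    rw [hcop.gcd_eq_one] at this
    exact_mod_cast this
  have key : ∀ z : Γ, z = (z ^ l) ^ (Nat.gcdA l k) * (z ^ k) ^ (Nat.gcdB l k) := by
    intro z
    conv_lhs => rw [← zpow_one z, hb, zpow_add, zpow_mul, zpow_mul, zpow_natCast, zpow_natCast]
  rw [key x, key y, hl, hk]

lemma closureR_cop {l k : ℕ} (hl : l.Prime) (hk : 0 < k) (hlk : k < l) : Nat.Coprime l k := by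
  rw [Nat.Prime.coprime_iff_not_dvd hl]
  intro hd
  have := Nat.le_of_dvd hk hd
  omega

theorem RootU.comap {φ : Γ →* Γ'} (hφ : Function.Injective φ) {c : Γ} (h : RootU (φ c)) :
    RootU c := by
  obtain ⟨N, hN⟩ := h
  refine ⟨N, fun l hl hlt x hx => hφ (hN l hl hlt (φ x) ?_)⟩
  rw [← map_pow, ← map_pow, hx]

theorem rootU_rwp {C : Type*} [Group C] [Fintype C] (h : ∀ c : Γ, RootU c)
    (w : RegularWreathProduct Γ C) : RootU w := by
  choose N hN using fun i : C => h ((w ^ Fintype.card C).left i)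
  refine ⟨(∑ i, N i) + Fintype.card C, fun l hl hlt x hx => ?_⟩
  refine closureR_coprime (closureR_cop hl (Fintype.card_pos (α := C)) (by omega)) hx ?_
  have h1 : (x ^ Fintype.card C) ^ l = (w ^ Fintype.card C) ^ l := by
    rw [← pow_mul, ← pow_mul, mul_comm, pow_mul, pow_mul, hx]
  refine RegularWreathProduct.ext ?_ ?_
  · funext i
    refine hN i l hl ?_ _ ?_
    · have := Finset.single_le_sum (f := N) (fun j _ => Nat.zero_le _) (Finset.mem_univ i)
      omega
    · have h2 := congrFun (congrArg RegularWreathProduct.left h1) i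
      rw [Pool.Agent.Lib.MP_8f66f0_al_Wreath.rwp_pow_left_of_right
          (Pool.Agent.Lib.MP_8f66f0_al_Wreath.rwp_pow_card_right x),
        Pool.Agent.Lib.MP_8f66f0_al_Wreath.rwp_pow_left_of_right
          (Pool.Agent.Lib.MP_8f66f0_al_Wreath.rwp_pow_card_right w), Pi.pow_apply,
        Pi.pow_apply] at h2
      exact h2
  · rw [Pool.Agent.Lib.MP_8f66f0_al_Wreath.rwp_pow_card_right,
      Pool.Agent.Lib.MP_8f66f0_al_Wreath.rwp_pow_card_right]

theorem rootU_of_normal (N : Subgroup Γ) [N.Normal] [N.FiniteIndex] (h : ∀ c : N, RootU c)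
    (c : Γ) : RootU c := by
  obtain ⟨M, hM⟩ := h ⟨c ^ N.index, N.pow_index_mem c⟩
  have hk : 0 < N.index := Nat.pos_of_ne_zero Subgroup.FiniteIndex.index_ne_zero
  refine ⟨M + N.index, fun l hl hlt x hx => ?_⟩
  refine closureR_coprime (closureR_cop hl hk (by omega)) hx ?_
  have h1 := hM l hl (by omega) ⟨x ^ N.index, N.pow_index_mem x⟩ (by
    apply Subtype.ext
    change (x ^ N.index) ^ l = (c ^ N.index) ^ l
    rw [← pow_mul, ← pow_mul, mul_comm, pow_mul, pow_mul, hx])
  exact congrArg Subtype.val h1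

end ClosureR

end Pool.Agent.Lib.MP_8f66f0_al_Nil
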