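import Mathlib
import Pool.Agent.Lib.MP_8f66f0_al_Nil.ClassDefs
import Pool.Agent.Lib.MP_8f66f0_al_Uni.PDef

/-! # Elements with a nilpotent Euler class: definitions.

`b` is a mixed cocycle of level `k`. It defines a polynomial class cocycle `mixPoly k b` on the free
group on the elements of `Γ`. -/

set_option autoImplicit false
set_option linter.unusedSectionVars false

namespace Pool.Agent.Lib.MP_8f66f0_al_Nil

open Pool.Agent.Lib.MP_8f66f0_al_FinQ Pool.Agent.Lib.MP_8f66f0_al_Uni
  Pool.Agent.Lib.MP_8f66f0_al_ChernS Pool.Agent.Lib.MP_8f66f0_al_Mixed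

section path

variable {Γ : Type*} [Group Γ] {K : Type*} [Ring K]

/-- The group element of a signed letter. -/
def sl (a : Γ × Bool) : Γ := cond a.2 a.1 a.1⁻¹

/-- The sum of `N u * N u'` over the edges `(u, u')` of the path which starts at the given element and
has the given letters. -/
def pgl (N : Γ → K) : Γ → List (Γ × Bool) → K
  | _, [] => 0
  | u, a :: w => N u * N (u * sl a) + pgl N (u * sl a) w

open Classical in
/-- The same for the reduced word of an element of the free group. -/
noncomputable def pgF (N : Γ → K) (u : Γ) (g : FreeGroup Γ) : K := pgl N u g.toWord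

/-- The polynomial class cocycle defined by a mixed cocycle. -/
noncomputable def mixPoly (k : ℕ) (b : Γ → List Γ → ℤ) (h x : FreeGroup Γ) : ℤ :=
  2 * ∑ m ∈ Finset.range k, GG k m * Lc b (pr Γ x)
    (pgF nn 1 h⁻¹ * (pgF nn 1 x - (nn (pr Γ x) - nn 1) * nn 1) ^ m)

end path

section defs

/-- There is a polynomial class cocycle at `c` with nonzero value, over a noetherian domain of
characteristic zero in which `p` is not a unit, whose pairing with all matrices which are invertible
modulo the power of the kernel ideal vanishes. -/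
def PolyZero.{v, u} (p : ℕ) {Γ : Type u} [Group Γ] (c : Γ) : Prop :=
  ∃ (R : Type v) (_ : CommRing R) (_ : IsDomain R) (_ : CharZero R) (_ : IsNoetherianRing R)
    (J : ℕ) (δ : FreeGroup Γ → FreeGroup Γ → R) (D : R), ¬ IsUnit (p : R) ∧ D ≠ 0 ∧
    IsPoly (pr Γ) c J δ D ∧
    ∀ (n : ℕ) (A' B' : Matrix (Fin n) (Fin n) (MonoidAlgebra ℤ (FreeGroup Γ))),
      EntIn ((kerI ℤ (pr Γ)) ^ (J + 1)) (A' * B' - 1) →
      EntIn ((kerI ℤ (pr Γ)) ^ (J + 1)) (B' * A' - 1) →
      mbil (bil (psiW (pr Γ) c δ)) (baseMat R A') (baseMat R B') = 0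

/-- `c` has a mixed cocycle with nonzero value, or it is detected or has infinite order in a suitable
representation. -/
def NDet.{v, u} (p : ℕ) {Γ : Type u} [Group Γ] (c : Γ) : Prop := MixDet c ∨ PDet.{v} p c

/-- Unique roots, and for all large primes all elements of infinite order satisfy `NDet`. -/
def Good2.{v, u} (H : Type u) [Group H] : Prop :=
  (∀ c : H, RootU c) ∧ ∃ N : ℕ, ∀ p : ℕ, p.Prime → N < p → ∀ c : H,
    (∀ n : ℕ, 0 < n → c ^ n ≠ 1) → NDet.{v} p c

end defs

end Pool.Agent.Lib.MP_8f66f0_al_Nil
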