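import Mathlib
import Pool.Agent.Lib.MP_8f66f0_al_Nil.Defs
import Pool.Agent.Lib.MP_8f66f0_al_Uni.Final

namespace Pool.Agent.Lib.MP_8f66f0_al_Wall
end Pool.Agent.Lib.MP_8f66f0_al_Wall

/-! # MultA


PROOF. `tauGood_of_polyZero`: the end of the proof of `tauGood_of_rep` (Uni/Final.lean): `exists_common_ring`,
`tauGood_of_poly`, `IsPoly.map`, `mbil_chg`, `TauGood.descend`. `c ≠ 1`: `δ (1, 1) = 0` by the cocycle
identity. `mult_of_polyZero`: as `mult_of_pdet` in Uni/Final.lean. -/

set_option autoImplicit false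
set_option linter.unusedSectionVars false
set_option linter.unusedVariables false

namespace Pool.Agent.Lib.MP_8f66f0_al_Nil

open Pool.Agent.Lib.MP_8f66f0_al_Plus Pool.Agent.Lib.MP_8f66f0_al_Wall
open Pool.Agent.Lib.MP_8f66f0_al_FinQ Pool.Agent.Lib.MP_8f66f0_al_Uni
  Pool.Agent.Lib.MP_8f66f0_al_ChernS Pool.Agent.Lib.MP_8f66f0_al_Mixed


section Mult

theorem tauGood_of_polyZero.{v, u} {Γ : Type u} [Group Γ] {p : ℕ} (hp : p.Prime) {c : Γ}
    (h : PolyZero.{v} p c) {n : ℕ} {A B : Matrix (Fin n) (Fin n) (MonoidAlgebra ℤ Γ)}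
    (hAB : A * B = 1) (hBA : B * A = 1) (F : Type*) [Field F] [NumberField F] [IsGalois ℚ F] :
    TauGood (NumberField.RingOfIntegers F) p A B c := by
  classical
  obtain ⟨R, i1, i2, i3, i4, J, δ, D, hpR, hD, hδ, hpair⟩ := h
  have hcne : c ≠ 1 := by
    rintro rfl
    have h1 : IsConj (1 : Γ) (pr Γ 1) := by
      rw [map_one]
    have h2 := hδ.coc 1 1 1 h1
    rw [one_mul, one_mul, inv_one] at h2
    have h3 : δ 1 1 = 0 := by
      have h4 : δ 1 1 + 0 = δ 1 1 + δ 1 1 := by rw [add_zero]; exact h2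
      exact (add_left_cancel h4).symm
    exact hD (by rw [← hδ.diag 1 h1, h3])
  obtain ⟨S, i, hSn, hi, hpS⟩ := exists_common_ring hp hpR (NumberField.RingOfIntegers F)
  have hinjΩ : Function.Injective (algebraMap R (AlgebraicClosure (FractionRing R))) := by
    rw [IsScalarTower.algebraMap_eq R (FractionRing R) (AlgebraicClosure (FractionRing R))]
    exact (algebraMap (FractionRing R) (AlgebraicClosure (FractionRing R))).injective.comp
      (IsFractionRing.injective R (FractionRing R))
  have hinjS : Function.Injective (algebraMap R S) := by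
    intro x y hxy
    apply hinjΩ
    have := congrArg (algebraMap S (AlgebraicClosure (FractionRing R))) hxy
    rwa [← IsScalarTower.algebraMap_apply, ← IsScalarTower.algebraMap_apply] at this
  have hSchar : CharZero S := charZero_of_injective_algebraMap hinjS
  have hgood : TauGood S p A B c := by
    refine tauGood_of_poly hAB hBA hp (pr_surjective Γ) hcne
      (D := algebraMap R S D) ?_ (IsPoly.map (algebraMap R S) hδ) ?_
    · intro h
      exact hD (hinjS (h.trans (map_zero _).symm))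
    · intro A' B' hAB' hBA'
      rw [mbil_chg, hpair n A' B' hAB' hBA', map_zero]
  exact hgood.descend hp hpS i hi

theorem mult_of_polyZero.{v, u} {Γ : Type u} [Group Γ] {n : ℕ}
    {A B : Matrix (Fin n) (Fin n) (MonoidAlgebra ℤ Γ)} (hAB : A * B = 1) (hBA : B * A = 1)
    {O : Type} [CommRing O] [IsDomain O] [CharZero O] [Module.Finite ℤ O] {p : ℕ} (hp : p.Prime)
    {κ κ' : Type*} [Fintype κ] [DecidableEq κ] [Fintype κ'] [DecidableEq κ']
    (β β' : Γ →* Matrix κ κ O) (σ : Γ →* Matrix κ' κ' O)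
    (hσ : ∀ c : Γ, ¬ PolyZero.{v} p c → σ c = 1)
    (hnil : NilMod p (twist β' B * twist β A - 1)) :
    ∃ N : ℕ, 0 < N ∧
      ((mapRep (tens β σ) A).det *
          (mapRep β' A).det ^ Fintype.card κ') ^ N =
        ((mapRep (tens β' σ) A).det *
          (mapRep β A).det ^ Fintype.card κ') ^ N := by
  obtain ⟨F, _, _, _, j, hj⟩ := exists_galois_embedding O
  have hgood : ∀ c : Γ, PolyZero.{v} p c → TauGood (NumberField.RingOfIntegers F) p A B c :=
    fun c hc => tauGood_of_polyZero hp hc hAB hBA F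
  set e := Fintype.equivFin κ
  set e' := Fintype.equivFin κ'
  have hσ' : ∀ c : Γ, ¬ TauGood (NumberField.RingOfIntegers F) p A B c →
      chg j (reRep e' σ) c = 1 := by
    intro c hc
    have h1 : σ c = 1 := hσ c fun h => hc (hgood c h)
    have h2 : reRep e' σ c = 1 := by
      change Matrix.reindexAlgEquiv O O e' (σ c) = 1
      rw [h1, map_one]
    change j.mapMatrix (reRep e' σ c) = 1
    rw [h2, map_one]
  obtain ⟨N, hN, h⟩ := mult_of_tauGood hAB hBA hp (psep_of_finite hp) (Fintype.card κ)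
    (Fintype.card κ') (chg j (reRep e β)) (chg j (reRep e β')) (chg j (reRep e' σ)) hσ' (by
      rw [twist_chg, twist_chg, ← map_mul, ← map_one (chgM j), ← map_sub]
      apply nilMod_chg
      obtain ⟨m, W0, hW0⟩ := hnil
      refine ⟨m, Matrix.reindexAlgEquiv ℤ (MonoidAlgebra O Γ)
        (Equiv.prodCongr (Equiv.refl (Fin n)) e) W0, ?_⟩
      rw [twist_reRep, twist_reRep, ← map_mul, ← map_one (Matrix.reindexAlgEquiv ℤ
        (MonoidAlgebra O Γ) (Equiv.prodCongr (Equiv.refl (Fin n)) e)), ← map_sub, ← map_pow, hW0,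
        map_nsmul])
  refine ⟨N, hN, hj ?_⟩
  rw [tens_chg, tens_chg, det_mapRep_chg, det_mapRep_chg, det_mapRep_chg, det_mapRep_chg,
    tens_reRep, tens_reRep, det_reRep, det_reRep, det_reRep, det_reRep] at h
  rw [map_pow, map_mul, map_pow, map_pow, map_mul, map_pow]
  exact h

end Mult

end Pool.Agent.Lib.MP_8f66f0_al_Nil
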