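import Mathlib
import Pool.Agent.Lib.MP_8f66f0_al_Nil.MultA
import Pool.Agent.Lib.MP_8f66f0_al_Wreath.Fin

/-! # MultB

PROOF. `oneDim_root2`: as `oneDim_root` in Wreath/OneDim.lean, with `mult_of_polyZero` instead of `mult_of_pdet` and the
hypothesis `hdet` instead of `powerSep_wreath` and `pdet_wreath` (elements of finite order are treated by
`wchar_of_torsion`). `rootHyp2`: as `rootHyp_of_pdet` in Wreath/Fin.lean, with `oneDim_root2`. -/

set_option autoImplicit false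
set_option linter.unusedSectionVars false
set_option linter.unusedVariables false

namespace Pool.Agent.Lib.MP_8f66f0_al_Nil

open Pool.Agent.Lib.MP_8f66f0_al_Dennis Pool.Agent.Lib.MP_8f66f0_al_Wreath
open Pool.Agent.Lib.MP_8f66f0_al_Plus Pool.Agent.Lib.MP_8f66f0_al_Wall
open Pool.Agent.Lib.MP_8f66f0_al_FinQ Pool.Agent.Lib.MP_8f66f0_al_Uni
  Pool.Agent.Lib.MP_8f66f0_al_ChernS Pool.Agent.Lib.MP_8f66f0_al_Mixed


section Mult

theorem oneDim_root2.{v, u} {Γ : Type u} [Group Γ]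
    (htf : ∀ g : Γ, ∀ n : ℕ, 0 < n → g ^ n = 1 → g = 1) {p : ℕ} (hp : p.Prime)
    (hdet : ∀ c : RegularWreathProduct Γ (Multiplicative (ZMod p)),
      (∀ n : ℕ, 0 < n → c ^ n ≠ 1) → PolyZero.{v} p c) {n : ℕ}
    {A B : Matrix (Fin n) (Fin n) (MonoidAlgebra ℤ Γ)} (hAB : A * B = 1) (hBA : B * A = 1)
    {m : ℕ} (hm : 0 < m) (hpm : p ≡ 1 [MOD m]) (χ : Γ →* ℂ) (hχ : ∀ g, χ g ^ m = 1) :
    ∃ N : ℕ, 0 < N ∧ (A.map (MonoidAlgebra.lift ℤ ℂ Γ χ)).det ^ N = 1 := by
  classical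
  have hpf : Fact p.Prime := ⟨hp⟩
  set C := Multiplicative (ZMod p) with hCdef
  have hcard : Fintype.card C = p := by
    exact (Fintype.card_multiplicative _).trans (ZMod.card p)
  have hC : (Fintype.card C).Prime := by rw [hcard]; exact hp
  obtain ⟨ω, hω1, hωp⟩ := exists_omega hp
  obtain ⟨X, Y, hXY, hYX, hdetX⟩ := exists_big (C := C) hC hAB hBA
  -- the ring
  set O := rootRing ℂ (m * p) with hO
  have hmp : 0 < m * p := Nat.mul_pos hm hp.pos
  have hfin : Module.Finite ℤ O := rootRing_finite hmp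
  have hnoeth : IsNoetherianRing O := rootRing_noetherian hmp
  set χO : Γ →* O :=
    { toFun := fun g => ⟨χ g, mem_rootRing (by rw [pow_mul, hχ, one_pow])⟩
      map_one' := Subtype.ext (map_one χ)
      map_mul' := fun g h => Subtype.ext (map_mul χ g h) } with hχO
  set ωO : C →* O :=
    { toFun := fun s => ⟨ω s, mem_rootRing (by rw [mul_comm, pow_mul, hωp, one_pow])⟩
      map_one' := Subtype.ext (map_one ω)
      map_mul' := fun g h => Subtype.ext (map_mul ω g h) } with hωO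
  set ι : O →+* ℂ := algebraMap O ℂ with hι
  have hwchar : ∀ (χ' : Γ →* O) (ω' : C →* O) (χ'' : Γ →* ℂ) (ω'' : C →* ℂ),
      (∀ g, ι (χ' g) = χ'' g) → (∀ s, ι (ω' s) = ω'' s) →
      ((ι : O →* ℂ).comp (wchar χ' ω')) = wchar χ'' ω'' := by
    intro χ' ω' χ'' ω'' h1 h2
    ext g
    change ι ((∏ x, χ' (g.left x)) * ω' g.right) = (∏ x, χ'' (g.left x)) * ω'' g.right
    rw [map_mul, map_prod, h2]
    congr 1
    exact Finset.prod_congr rfl fun x _ => h1 _
  -- reindex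
  set e := Fintype.equivFin (C → Fin n) with he
  set X' := Matrix.reindexRingEquiv (MonoidAlgebra ℤ (RegularWreathProduct Γ C)) e X with hX'
  set Y' := Matrix.reindexRingEquiv (MonoidAlgebra ℤ (RegularWreathProduct Γ C)) e Y with hY'
  have hXY' : X' * Y' = 1 := by rw [hX', hY', ← map_mul, hXY, map_one]
  have hYX' : Y' * X' = 1 := by rw [hX', hY', ← map_mul, hYX, map_one]
  have hlift : ∀ f : RegularWreathProduct Γ C →* O,
      (X'.map (MonoidAlgebra.lift ℤ O _ f)).det = (X.map (MonoidAlgebra.lift ℤ O _ f)).det := by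
    intro f
    have h1 : X'.map (MonoidAlgebra.lift ℤ O _ f) =
        (X.map (MonoidAlgebra.lift ℤ O _ f)).submatrix e.symm e.symm := rfl
    rw [h1, Matrix.det_submatrix_equiv_self]
  -- the representations
  set f0 : RegularWreathProduct Γ C →* O := wchar 1 1 with hf0
  set f1 : RegularWreathProduct Γ C →* O := wchar 1 ωO with hf1
  set f2 : RegularWreathProduct Γ C →* O := wchar χO 1 with hf2
  set f3 : RegularWreathProduct Γ C →* O := wchar χO ωO with hf3
  have hσ : ∀ c : RegularWreathProduct Γ C, ¬ PolyZero.{v} p c → oneRep f2 c = 1 := by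
    intro c hc
    have h1 : ∃ k : ℕ, 0 < k ∧ c ^ k = 1 := by
      by_contra h
      push Not at h
      exact hc (hdet c h)
    obtain ⟨k, hk, hck⟩ := h1
    refine Matrix.ext fun i j => ?_
    rw [oneRep_apply, Subsingleton.elim i j, Matrix.one_apply_eq]
    exact wchar_of_torsion htf hC χO c hk hck
  have hnil : NilMod p (twist (oneRep f1) Y' * twist (oneRep f0) X' - 1) := by
    set J := (Ideal.span {(p : O)}).radical with hJ
    have hp0 : (p : O) ≠ 0 := Nat.cast_ne_zero.mpr hp.ne_zero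
    have e1 : twist (oneRep f1) Y' * twist (oneRep f0) X' - 1 =
        twist (oneRep f1) Y' * (twist (oneRep f0) X' - twist (oneRep f1) X') := by
      rw [mul_sub, ← map_mul (twist (oneRep f1)), hYX', map_one]
    have hcong : ∀ (g : RegularWreathProduct Γ C) (a b : Unit),
        oneRep f0 g a b - oneRep f1 g a b ∈ J := by
      intro g a b
      rw [oneRep_apply, oneRep_apply, hf0, hf1, wchar_apply, wchar_apply]
      have h1 : ∀ x : O, x ^ p = 1 → 1 - x ∈ J := by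
        intro x hx
        have h2 := sub_pow_mem_radical (x := x) (p := p) (a := 1) (m' := 1) (e := 0) hp
          (by rw [pow_one, mul_one, hx]) (by
            rw [zero_mul, pow_one, mul_one]
            exact (Nat.modEq_zero_iff_dvd.mpr dvd_rfl).symm)
        rw [pow_zero] at h2
        have h3 := J.neg_mem h2
        rwa [neg_sub] at h3
      have h4 : ωO g.right ^ p = 1 := Subtype.ext (hωp g.right)
      have h5 := h1 _ h4
      simpa using h5
    have hY1 : CoeffIn J (twist (oneRep f1) Y' * twist (oneRep f0) X' - 1) := by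
      rw [e1]
      have := (CoeffIn.top (twist (oneRep f1) Y')).mul (coeffIn_twist_sub (J := J) hcong X')
      rwa [Ideal.top_mul] at this
    obtain ⟨k, hk⟩ := Ideal.exists_radical_pow_le_of_fg (Ideal.span {(p : O)})
      (IsNoetherian.noetherian _)
    obtain ⟨W0, hW0⟩ := ((hY1.pow k).mono hk).exists_smul hp0
    exact ⟨k, W0, hW0⟩
  obtain ⟨N, hN0, hN⟩ := mult_of_polyZero hXY' hYX' hp (oneRep f0) (oneRep f1) (oneRep f2) hσ
    hnil
  rw [Fintype.card_unit, pow_one, pow_one] at hN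
  have hmul1 : ∀ (χ' : Γ →* O) (ω' : C →* O) (g : RegularWreathProduct Γ C),
      wchar 1 ω' g * wchar χ' 1 g = wchar χ' ω' g := by
    intro χ' ω' g
    rw [wchar_apply, wchar_apply, wchar_apply]
    simp [mul_comm]
  let _ : Unique (Unit × Unit) := ⟨⟨((), ())⟩, fun _ => rfl⟩
  rw [det_mapRep_unique (tens (oneRep f0) (oneRep f2)) f2 (by
      intro g i j
      rw [tens_apply, oneRep_apply, oneRep_apply]
      exact hmul1 χO 1 g),
    det_mapRep_unique (tens (oneRep f1) (oneRep f2)) f3 (by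
      intro g i j
      rw [tens_apply, oneRep_apply, oneRep_apply]
      exact hmul1 χO ωO g),
    det_mapRep_unique (oneRep f1) f1 (fun _ _ _ => rfl),
    det_mapRep_unique (oneRep f0) f0 (fun _ _ _ => rfl), hlift, hlift, hlift, hlift] at hN
  have hN' := congrArg ι hN
  rw [map_pow, map_pow, map_mul, map_mul, map_lift_det, map_lift_det, map_lift_det, map_lift_det,
    hf0, hf1, hf2, hf3, hwchar 1 1 1 1 (fun _ => rfl) (fun _ => rfl),
    hwchar 1 ωO 1 ω (fun _ => rfl) (fun _ => rfl), hwchar χO 1 χ 1 (fun _ => rfl) (fun _ => rfl),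
    hwchar χO ωO χ ω (fun _ => rfl) (fun _ => rfl)] at hN'
  -- determinants are nonzero
  have hDne : ∀ f : RegularWreathProduct Γ C →* ℂ,
      (X.map (MonoidAlgebra.lift ℤ ℂ _ f)).det ≠ 0 := by
    exact fun f => left_ne_zero_of_mul_eq_one (lift_mat_mul f hXY)
  have huv : ∀ f : Γ →* ℂ, (A.map (MonoidAlgebra.lift ℤ ℂ _ f)).det *
      (B.map (MonoidAlgebra.lift ℤ ℂ _ f)).det = 1 := by
    exact fun f => lift_mat_mul f hAB
  have hchi : ∀ f : Γ →* ℂ, (∀ g, f g ^ m = 1) → f ^ Fintype.card C = f := by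
    intro f hf
    ext g
    rw [MonoidHom.pow_apply, hcard]
    conv_rhs => rw [← pow_one (f g)]
    rw [pow_eq_pow_mod p (hf g), pow_eq_pow_mod 1 (hf g), hpm]
  have hratio : ∀ f : Γ →* ℂ, (∀ g, f g ^ m = 1) → ∃ K : ℕ, 0 < K ∧
      (X.map (MonoidAlgebra.lift ℤ ℂ _ (wchar f 1))).det ^ K =
      ((A.map (MonoidAlgebra.lift ℤ ℂ _ f)).det ^ (p - 1) *
        (X.map (MonoidAlgebra.lift ℤ ℂ _ (wchar f ω))).det) ^ K := by
    intro f hf
    have hA0 : (A.map (MonoidAlgebra.lift ℤ ℂ _ f)).det ≠ 0 := left_ne_zero_of_mul_eq_one (huv f)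
    have hB0 : (B.map (MonoidAlgebra.lift ℤ ℂ _ f)).det ≠ 0 := right_ne_zero_of_mul_eq_one (huv f)
    obtain ⟨K, hK0, hK⟩ := dete_ratio hC ω hω1 (A.map (MonoidAlgebra.lift ℤ ℂ _ f))
      (B.map (MonoidAlgebra.lift ℤ ℂ _ f)) hA0 hB0
    refine ⟨K, hK0, ?_⟩
    rw [hdetX, hdetX, hchi f hf, hK, hcard]
    congr 2
    have h3 : p = (p - 1) + 1 := by have := hp.pos; omega
    conv_lhs => rw [h3]
    rw [pow_succ, mul_assoc, huv, mul_one]
  obtain ⟨K1, hK10, hK1⟩ := hratio χ hχ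
  obtain ⟨K2, hK20, hK2⟩ := hratio 1 (fun g => by rw [MonoidHom.one_apply, one_pow])
  have hu1 := triv_det_sq hAB
  set u := (A.map (MonoidAlgebra.lift ℤ ℂ Γ χ)).det with hu
  set u1 := (A.map (MonoidAlgebra.lift ℤ ℂ Γ 1)).det with hu1'
  set D20 := (X.map (MonoidAlgebra.lift ℤ ℂ _ (wchar χ 1))).det with hD20
  set D3 := (X.map (MonoidAlgebra.lift ℤ ℂ _ (wchar χ ω))).det with hD3
  set D0 := (X.map (MonoidAlgebra.lift ℤ ℂ _ (wchar (1 : Γ →* ℂ) 1))).det with hD0
  set D1 := (X.map (MonoidAlgebra.lift ℤ ℂ _ (wchar (1 : Γ →* ℂ) ω))).det with hD1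
  refine ⟨(p - 1) * (N * K1 * K2) * 2, by
    have := hp.one_lt
    have h1 : 0 < p - 1 := by omega
    positivity, ?_⟩
  have g1 : D20 ^ (N * K1 * K2) = (u ^ (p - 1) * D3) ^ (N * K1 * K2) := by
    have : N * K1 * K2 = K1 * (N * K2) := by ring
    rw [this, pow_mul, hK1, ← pow_mul]
  have g2 : D0 ^ (N * K1 * K2) = (u1 ^ (p - 1) * D1) ^ (N * K1 * K2) := by
    have : N * K1 * K2 = K2 * (N * K1) := by ring
    rw [this, pow_mul, hK2, ← pow_mul]
  have g3 : (D20 * D1) ^ (N * K1 * K2) = (D3 * D0) ^ (N * K1 * K2) := by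
    rw [mul_assoc, pow_mul, hN', ← pow_mul]
  have hD3ne : D3 ^ (N * K1 * K2) ≠ 0 := pow_ne_zero _ (hDne _)
  have hD1ne : D1 ^ (N * K1 * K2) ≠ 0 := pow_ne_zero _ (hDne _)
  rw [mul_pow, mul_pow, g1, g2, mul_pow, mul_pow] at g3
  have g4 : (u ^ (p - 1)) ^ (N * K1 * K2) = (u1 ^ (p - 1)) ^ (N * K1 * K2) := by
    have h7 : D3 ^ (N * K1 * K2) * D1 ^ (N * K1 * K2) ≠ 0 := mul_ne_zero hD3ne hD1ne
    apply mul_right_cancel₀ h7
    linear_combination g3
  calc u ^ ((p - 1) * (N * K1 * K2) * 2) = ((u ^ (p - 1)) ^ (N * K1 * K2)) ^ 2 := by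
        rw [← pow_mul, ← pow_mul]
        congr 1
        ring
    _ = (u1 ^ 2) ^ ((p - 1) * (N * K1 * K2)) := by
        rw [g4, ← pow_mul, ← pow_mul, ← pow_mul]
        congr 1
        ring
    _ = 1 := by rw [hu1, one_pow]

theorem rootHyp2.{v, u} {Γ : Type u} [Group Γ]
    (htf : ∀ g : Γ, ∀ n : ℕ, 0 < n → g ^ n = 1 → g = 1)
    (hdet : ∀ m : ℕ, 0 < m → ∃ p : ℕ, p.Prime ∧ p ≡ 1 [MOD m] ∧
      ∀ (M : Subgroup Γ) [M.FiniteIndex] (c : RegularWreathProduct M (Multiplicative (ZMod p))),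
      (∀ n : ℕ, 0 < n → c ^ n ≠ 1) → PolyZero.{v} p c) {n : ℕ}
    {A B : Matrix (Fin n) (Fin n) (MonoidAlgebra ℤ Γ)} (hAB : A * B = 1) (hBA : B * A = 1)
    (N : Subgroup Γ) [N.Normal] [N.FiniteIndex] :
    RootHyp
      (mapMat (QuotientGroup.mk' N) A) := by
  classical
  intro k ρ
  rw [mapRep_mapMat]
  set π := QuotientGroup.mk' N with hπ
  have hsurj : Function.Surjective π := QuotientGroup.mk'_surjective N
  have hQ : Finite (Γ ⧸ N) := inferInstance
  have hm : 0 < Nat.card (Γ ⧸ N) := Nat.card_pos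
  obtain ⟨p, hp, hpm, hd⟩ := hdet _ hm
  refine artin_reduction π ρ hAB (fun C _ ψ hψ => ?_)
  have hfin : (C.comap π).FiniteIndex := ⟨by
    rw [Subgroup.index_comap_of_surjective C hsurj]
    exact Subgroup.index_ne_zero_of_finite⟩
  have hft : Fintype (Γ ⧸ C.comap π) := Fintype.ofFinite _
  set e := Fintype.equivFin (Fin n × (Γ ⧸ C.comap π)) with he
  have hre : ∀ {X Y : Matrix (Fin n) (Fin n) (MonoidAlgebra ℤ Γ)}, X * Y = 1 →
      Matrix.reindex e e (resMat (C.comap π) X) * Matrix.reindex e e (resMat (C.comap π) Y) = 1 := by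
    intro X Y h
    rw [Matrix.reindex_apply, Matrix.reindex_apply, Matrix.submatrix_mul_equiv, ← map_mul, h,
      map_one, Matrix.submatrix_one_equiv]
  have htf' : ∀ g : C.comap π, ∀ n : ℕ, 0 < n → g ^ n = 1 → g = 1 := fun g n hn h =>
    Subtype.ext (htf g n hn (by exact_mod_cast congrArg Subtype.val h))
  obtain ⟨K, hK0, hK⟩ := oneDim_root2 htf' hp (hd (C.comap π)) (hre hAB) (hre hBA)
    hm hpm (ψ.comp (π.subgroupComap C)) (fun x => hψ _)
  refine ⟨K, hK0, ?_⟩
  rw [det_mapRep_eq_of_trace _ (indRep (C.comap π) (sc1 (ψ.comp (π.subgroupComap C))))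
    (fun g => ?_) hAB, det_mapRep_ind, det_mapRep_sc1 _ _ e]
  · exact hK
  · rw [trace_indRep_sc1, trace_comap π hsurj C ψ g]
    rfl

end Mult

end Pool.Agent.Lib.MP_8f66f0_al_Nil
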