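import Mathlib
import Pool.Agent.Lib.MP_8f66f0_al_Nil.ClassDefs

namespace Pool.Agent.Lib.MP_8f66f0_al_Wall
end Pool.Agent.Lib.MP_8f66f0_al_Wall

/-! # Level1


PROOF. Let `δ` be a class cocycle at `c` with `δ c c ≠ 0`. Level `1`:
`b x [] = δ c c`, `b x [u, v] = δ u⁻¹ x - δ v⁻¹ x` if `x` is conjugate to `c`, all other values `0`.
Equivariance: `δ (u⁻¹ g⁻¹) (g x g⁻¹) = δ u⁻¹ x + δ g⁻¹ (g x g⁻¹)`. Mixed: `δ (a⁻¹ x⁻¹) x = δ a⁻¹ x + δ x⁻¹ x`,
`δ x⁻¹ x = - δ x x = - δ c c` (`cocycle_diag`), so `b x [x a, v] = b x [a, v] - b x []`; for longer lists both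
sides are `0` (for `u = [a1, a2, a3]`: `b x (x a :: u) = 0`, `b x (a :: u) = 0` and the alternating sum
`b x [a2, a3] - b x [a1, a3] + b x [a1, a2] = 0`); for `u` of even length all terms have odd length. -/

set_option autoImplicit false
set_option linter.unusedSectionVars false
set_option linter.unusedVariables false

namespace Pool.Agent.Lib.MP_8f66f0_al_Nil

open Pool.Agent.Lib.MP_8f66f0_al_Plus Pool.Agent.Lib.MP_8f66f0_al_Wall
open Pool.Agent.Lib.MP_8f66f0_al_FinQ Pool.Agent.Lib.MP_8f66f0_al_Uni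
  Pool.Agent.Lib.MP_8f66f0_al_ChernS Pool.Agent.Lib.MP_8f66f0_al_Mixed


section Level1

variable {Γ : Type*} [Group Γ]

/-- the values on the classes of `c` -/
def level1_w (δ : Γ → Γ → ℤ) (d : ℤ) (x : Γ) : List Γ → ℤ
  | [] => d
  | [_] => 0
  | [a, a'] => δ a⁻¹ x - δ a'⁻¹ x
  | _ :: _ :: _ :: _ => 0

lemma level1_w_long (δ : Γ → Γ → ℤ) (d : ℤ) (x : Γ) (u : List Γ) (h : 3 ≤ u.length) :
    level1_w δ d x u = 0 := by
  rcases u with _ | ⟨a, _ | ⟨b, _ | ⟨e, u⟩⟩⟩
  · simp at h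
  · simp at h
  · simp at h
  · rfl

open Classical in
/-- the cocycle -/
noncomputable def level1_b (c : Γ) (δ : Γ → Γ → ℤ) (x : Γ) (u : List Γ) : ℤ :=
  if IsConj c x then level1_w δ (δ c c) x u else 0

lemma level1_eq_zero (c : Γ) (δ : Γ → Γ → ℤ) (x : Γ) (u : List Γ)
    (h : level1_w δ (δ c c) x u = 0) : level1_b c δ x u = 0 := by
  unfold level1_b
  split_ifs
  · exact h
  · rfl

theorem mixDet_of_detected {c : Γ} (h : Detected c) : MixDet c := by
  classical
  obtain ⟨δ, hδ, h0⟩ := h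
  have hone : ∀ x, IsConj c x → δ 1 x = 0 := by
    intro x hx
    have h1 := hδ 1 1 x hx
    rw [one_mul, one_mul, inv_one, mul_one] at h1
    linarith
  have hinv : ∀ x, IsConj c x → δ x⁻¹ x = -δ c c := by
    intro x hx
    have h1 := hδ x⁻¹ x x hx
    rw [inv_mul_cancel, hone x hx, mul_inv_cancel_right, cocycle_diag hδ hx] at h1
    linarith
  refine ⟨1, level1_b c δ, ?_, ?_⟩
  · refine ⟨fun x u hu => level1_eq_zero _ _ _ _ (level1_w_long _ _ _ _ (by omega)),
      fun x u hu => level1_eq_zero _ _ _ _ ?_, fun g x u => ?_, fun x u a a' v => ?_,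
      fun x u a v => level1_eq_zero _ _ _ _ ?_, fun x a u => ?_⟩
    · rcases u with _ | ⟨a, _ | ⟨b, _ | ⟨e, u⟩⟩⟩
      · simp at hu
      · rfl
      · exact absurd (show Odd 2 from hu) (by decide)
      · rfl
    · have hiff : IsConj c (g * x * g⁻¹) ↔ IsConj c x := by
        have h1 : IsConj x (g * x * g⁻¹) := isConj_iff.mpr ⟨g, rfl⟩
        exact ⟨fun h => h.trans h1.symm, fun h => h.trans h1⟩
      unfold level1_b
      by_cases hx : IsConj c x
      · rw [if_pos hx, if_pos (hiff.mpr hx)]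
        rcases u with _ | ⟨a, _ | ⟨b, _ | ⟨e, u⟩⟩⟩
        · rfl
        · rfl
        · show δ (g * a)⁻¹ (g * x * g⁻¹) - δ (g * b)⁻¹ (g * x * g⁻¹) = δ a⁻¹ x - δ b⁻¹ x
          have h1 : ∀ y : Γ, δ (g * y)⁻¹ (g * x * g⁻¹) = δ y⁻¹ x + δ g⁻¹ (g * x * g⁻¹) := by
            intro y
            rw [mul_inv_rev, hδ _ _ _ (hiff.mpr hx)]
            congr 2
            group
          rw [h1, h1]
          ring
        · rfl
      · rw [if_neg hx, if_neg fun h => hx (hiff.mp h)]
    · unfold level1_b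
      by_cases hx : IsConj c x
      · rw [if_pos hx, if_pos hx]
        rcases u with _ | ⟨b, u⟩
        · rcases v with _ | ⟨b, v⟩
          · show δ a⁻¹ x - δ a'⁻¹ x = -(δ a'⁻¹ x - δ a⁻¹ x)
            ring
          · rw [level1_w_long _ _ _ _ (by simp), level1_w_long _ _ _ _ (by simp), neg_zero]
        · rw [level1_w_long _ _ _ _ (by simp; omega), level1_w_long _ _ _ _ (by simp; omega),
            neg_zero]
      · rw [if_neg hx, if_neg hx, neg_zero]
    · rcases u with _ | ⟨b, u⟩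
      · rcases v with _ | ⟨b, v⟩
        · show δ a⁻¹ x - δ a⁻¹ x = 0
          ring
        · exact level1_w_long _ _ _ _ (by simp)
      · exact level1_w_long _ _ _ _ (by simp; omega)
    · by_cases hx : IsConj c x
      · have hb : ∀ w : List Γ, level1_b c δ x w = level1_w δ (δ c c) x w := fun w => if_pos hx
        simp only [hb]
        rcases u with _ | ⟨b, _ | ⟨e, _ | ⟨f, _ | ⟨k, u⟩⟩⟩⟩
        · simp [level1_w]
        · show δ (x * a)⁻¹ x - δ b⁻¹ x = δ a⁻¹ x - δ b⁻¹ x -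
            ∑ i ∈ Finset.range 1, (-1) ^ i * level1_w δ (δ c c) x ([b].eraseIdx i)
          have h1 : δ (x * a)⁻¹ x = δ a⁻¹ x + δ x⁻¹ x := by
            rw [mul_inv_rev, hδ _ _ _ hx]
            congr 2
            group
          rw [Finset.sum_range_one, h1, hinv x hx]
          show _ = δ a⁻¹ x - δ b⁻¹ x - (-1) ^ 0 * δ c c
          ring
        · show (0 : ℤ) = 0 - ∑ i ∈ Finset.range 2, (-1) ^ i *
            level1_w δ (δ c c) x ([b, e].eraseIdx i)
          rw [Finset.sum_range_succ, Finset.sum_range_one]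
          show (0 : ℤ) = 0 - ((-1) ^ 0 * 0 + (-1) ^ 1 * 0)
          ring
        · show (0 : ℤ) = 0 - ∑ i ∈ Finset.range 3, (-1) ^ i *
            level1_w δ (δ c c) x ([b, e, f].eraseIdx i)
          rw [Finset.sum_range_succ, Finset.sum_range_succ, Finset.sum_range_one]
          show (0 : ℤ) = 0 - ((-1) ^ 0 * (δ e⁻¹ x - δ f⁻¹ x) + (-1) ^ 1 * (δ b⁻¹ x - δ f⁻¹ x) +
            (-1) ^ 2 * (δ b⁻¹ x - δ e⁻¹ x))
          ring
        · rw [level1_w_long _ _ _ _ (by simp), level1_w_long _ _ _ _ (by simp),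
            Finset.sum_eq_zero, sub_zero]
          intro i hi
          rw [level1_w_long, mul_zero]
          rw [List.length_eraseIdx_of_lt (Finset.mem_range.mp hi)]
          simp
      · have hb : ∀ w : List Γ, level1_b c δ x w = 0 := fun w => if_neg hx
        simp only [hb, mul_zero, Finset.sum_const_zero, sub_zero]
  · have h1 : level1_b c δ c [] = δ c c := if_pos (IsConj.refl c)
    rw [h1]
    exact h0

end Level1

end Pool.Agent.Lib.MP_8f66f0_al_Nil
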