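import Mathlib
import Pool.Agent.Lib.MP_8f66f0_al_Nil.Defs

namespace Pool.Agent.Lib.MP_8f66f0_al_Wall
end Pool.Agent.Lib.MP_8f66f0_al_Wall

/-! # Paths in the free group. -/

set_option autoImplicit false
set_option linter.unusedSectionVars false
set_option linter.unusedVariables false

namespace Pool.Agent.Lib.MP_8f66f0_al_Nil

open Pool.Agent.Lib.MP_8f66f0_al_Plus Pool.Agent.Lib.MP_8f66f0_al_Wall
open Pool.Agent.Lib.MP_8f66f0_al_FinQ Pool.Agent.Lib.MP_8f66f0_al_Uni
  Pool.Agent.Lib.MP_8f66f0_al_ChernS Pool.Agent.Lib.MP_8f66f0_al_Mixed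

section Path

variable {Γ : Type*} [Group Γ] {K K' : Type*} [Ring K] [Ring K']

lemma path_sl_not (a : Γ × Bool) : sl (a.1, !a.2) = (sl a)⁻¹ := by
  obtain ⟨a, b⟩ := a
  cases b
  · change a = a⁻¹⁻¹
    rw [inv_inv]
  · rfl

/-- The product of the letters. -/
lemma path_pr_mk (w : List (Γ × Bool)) : pr Γ (FreeGroup.mk w) = (w.map sl).prod := by
  unfold pr
  rw [FreeGroup.lift_mk]
  congr 1

lemma pgl_append (N : Γ → K) (u : Γ) (w w' : List (Γ × Bool)) :
    pgl N u (w ++ w') = pgl N u w + pgl N (u * (w.map sl).prod) w' := by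
  induction w generalizing u with
  | nil => simp [pgl]
  | cons a w ih =>
    rw [List.cons_append]
    change N u * N (u * sl a) + pgl N (u * sl a) (w ++ w') = N u * N (u * sl a) +
      pgl N (u * sl a) w + _
    rw [ih, List.map_cons, List.prod_cons]
    simp only [mul_assoc, add_assoc]

lemma pgl_step (N : Γ → K) (anti : ∀ a b, N a * N b = -(N b * N a)) (u : Γ)
    {w w' : List (Γ × Bool)} (h : FreeGroup.Red.Step w w') : pgl N u w = pgl N u w' := by
  obtain ⟨⟩ := h
  rename_i L1 L2 x b
  rw [pgl_append, pgl_append]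
  congr 1
  generalize u * (L1.map sl).prod = v
  have h1 : sl (x, !b) = (sl (x, b))⁻¹ := path_sl_not (x, b)
  change N v * N (v * sl (x, b)) + (N (v * sl (x, b)) * N (v * sl (x, b) * sl (x, !b)) +
    pgl N (v * sl (x, b) * sl (x, !b)) L2) = _
  rw [h1, mul_inv_cancel_right, ← add_assoc, anti v, neg_add_cancel, zero_add]

lemma pgl_red (N : Γ → K) (anti : ∀ a b, N a * N b = -(N b * N a)) (u : Γ)
    {w w' : List (Γ × Bool)} (h : FreeGroup.Red w w') : pgl N u w = pgl N u w' := by
  induction h with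
  | refl => rfl
  | tail _ h ih => rw [ih, pgl_step N anti u h]

/-- The value on any word which represents the element. -/
lemma pgF_mk (N : Γ → K) (anti : ∀ a b, N a * N b = -(N b * N a)) (u : Γ)
    (w : List (Γ × Bool)) : pgF N u (FreeGroup.mk w) = pgl N u w := by
  classical
  unfold pgF
  rw [FreeGroup.toWord_mk]
  symm
  convert pgl_red N anti u (FreeGroup.reduce.red (L := w)) using 2

theorem pgF_one (N : Γ → K) (u : Γ) : pgF N u 1 = 0 := by
  classical
  unfold pgF
  rw [FreeGroup.toWord_one]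
  rfl

theorem pgF_mul (N : Γ → K) (anti : ∀ a b, N a * N b = -(N b * N a)) (u : Γ) (g h : FreeGroup Γ) :
    pgF N u (g * h) = pgF N u g + pgF N (u * pr Γ g) h := by
  obtain ⟨g, rfl⟩ := Quot.exists_rep g
  obtain ⟨h, rfl⟩ := Quot.exists_rep h
  change pgF N u (FreeGroup.mk g * FreeGroup.mk h) = pgF N u (FreeGroup.mk g) +
    pgF N (u * pr Γ (FreeGroup.mk g)) (FreeGroup.mk h)
  rw [FreeGroup.mul_mk, pgF_mk N anti, pgF_mk N anti, pgF_mk N anti, pgl_append, path_pr_mk]

lemma pgl_map (f : K →+* K') (N : Γ → K) (u : Γ) (w : List (Γ × Bool)) :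
    f (pgl N u w) = pgl (fun a => f (N a)) u w := by
  induction w generalizing u with
  | nil => exact map_zero f
  | cons a w ih =>
    change f (N u * N (u * sl a) + pgl N (u * sl a) w) = _
    rw [map_add, map_mul, ih]
    rfl

theorem pgF_map (f : K →+* K') (N : Γ → K) (u : Γ) (g : FreeGroup Γ) :
    f (pgF N u g) = pgF (fun a => f (N a)) u g := pgl_map f N u _

lemma pgl_trans (N : Γ → K) (x u : Γ) (w : List (Γ × Bool)) :
    pgl (fun a => N (x * a)) u w = pgl N (x * u) w := by
  induction w generalizing u with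
  | nil => rfl
  | cons a w ih =>
    change N (x * u) * N (x * (u * sl a)) + pgl (fun a => N (x * a)) (u * sl a) w =
      N (x * u) * N (x * u * sl a) + pgl N (x * u * sl a) w
    rw [ih, mul_assoc]

theorem pgF_trans (N : Γ → K) (x u : Γ) (g : FreeGroup Γ) :
    pgF (fun a => N (x * a)) u g = pgF N (x * u) g := pgl_trans N x u _

theorem pgF_inv (N : Γ → K) (anti : ∀ a b, N a * N b = -(N b * N a)) (u : Γ) (g : FreeGroup Γ) :
    pgF N u g⁻¹ = - pgF N (u * (pr Γ g)⁻¹) g := by
  have h := pgF_mul N anti u g⁻¹ g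
  rw [inv_mul_cancel, pgF_one, map_inv] at h
  exact eq_neg_of_add_eq_zero_left h.symm

/-- `c * N = N + ρ` -/
theorem pgF_period (N : Γ → K) (anti : ∀ a b, N a * N b = -(N b * N a)) (sq : ∀ a, N a * N a = 0)
    (c : Γ) (ρ : K) (hρ : ∀ a, N (c * a) = N a + ρ) (u : Γ) (g : FreeGroup Γ) :
    pgF N (c * u) g = pgF N u g + ρ * (N (u * pr Γ g) - N u) := by
  have hρ' : ρ = N c - N 1 := by
    have h := hρ 1
    rw [mul_one] at h
    rw [h, add_sub_cancel_left]
  have rN : ∀ a, N a * ρ = -(ρ * N a) := by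
    intro a
    rw [hρ', mul_sub, sub_mul, anti a c, anti a 1]
    abel
  have rr : ρ * ρ = 0 := by
    rw [hρ', sub_mul, mul_sub, mul_sub, sq, sq, anti 1 c]
    abel
  obtain ⟨w, rfl⟩ := Quot.exists_rep g
  change pgF N (c * u) (FreeGroup.mk w) = pgF N u (FreeGroup.mk w) +
    ρ * (N (u * pr Γ (FreeGroup.mk w)) - N u)
  rw [pgF_mk N anti, pgF_mk N anti, path_pr_mk]
  induction w generalizing u with
  | nil =>
    rw [List.map_nil, List.prod_nil, mul_one, sub_self, mul_zero, add_zero]
    rfl
  | cons a w ih =>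
    change N (c * u) * N (c * u * sl a) + pgl N (c * u * sl a) w =
      N u * N (u * sl a) + pgl N (u * sl a) w + _
    rw [mul_assoc c u, ih, hρ, hρ, List.map_cons, List.prod_cons, ← mul_assoc u, add_mul, mul_add,
      mul_add, rr, rN, mul_sub, mul_sub]
    abel

/-- Even elements commute with odd ones. -/
lemma path_comm2 (N : Γ → K) (anti : ∀ a b, N a * N b = -(N b * N a)) (a b c : Γ) :
    Commute (N a * N b) (N c) := by
  change N a * N b * N c = N c * (N a * N b)
  rw [mul_assoc, anti b c, mul_neg, ← mul_assoc, anti a c, neg_mul, neg_neg, mul_assoc]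

theorem pgF_comm (N : Γ → K) (anti : ∀ a b, N a * N b = -(N b * N a)) (u : Γ) (g : FreeGroup Γ)
    (a : Γ) : Commute (pgF N u g) (N a) := by
  obtain ⟨w, rfl⟩ := Quot.exists_rep g
  change Commute (pgF N u (FreeGroup.mk w)) (N a)
  rw [pgF_mk N anti]
  induction w generalizing u with
  | nil => exact Commute.zero_left _
  | cons b w ih => exact (path_comm2 N anti u _ a).add_left (ih _)

lemma pgl_eq_pg (N : Γ → K) (w : List (Γ × Bool)) (u : Γ) :
    pgl N u w = pg (fun j => N (u * ((w.map sl).take j).prod)) w.length := by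
  induction w generalizing u with
  | nil => rfl
  | cons a w ih =>
    change N u * N (u * sl a) + pgl N (u * sl a) w = _
    rw [ih]
    unfold pg
    rw [List.length_cons, Finset.sum_range_succ']
    simp only [List.map_cons, List.take_succ_cons, List.prod_cons, List.take_zero, List.prod_nil,
      mul_one, zero_add, mul_assoc]
    rw [add_comm]

lemma path_vx_le (w : List Γ) (j : ℕ) (hj : j ≤ w.length) : vx w j = (w.take j).prod := by
  unfold vx
  rcases Nat.eq_or_lt_of_le hj with h | h
  · rcases Nat.eq_zero_or_pos w.length with h0 | h0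
    · rw [List.length_eq_zero_iff] at h0
      subst h0
      simp
    · rw [h, Nat.div_self h0, Nat.mod_self, pow_one, List.take_zero, List.prod_nil, mul_one,
        List.take_length]
  · rw [Nat.div_eq_of_lt h, Nat.mod_eq_of_lt h, pow_zero, one_mul]

/-- The path of the word `w` (vertices `vx`). -/
theorem pgF_eq_pg (N : Γ → K) (anti : ∀ a b, N a * N b = -(N b * N a)) (x : FreeGroup Γ) :
    ∃ w : List Γ, w.prod = pr Γ x ∧ pgF N 1 x = pg (fun j => N (vx w j)) w.length := by
  obtain ⟨w, rfl⟩ := Quot.exists_rep x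
  refine ⟨w.map sl, (path_pr_mk w).symm, ?_⟩
  change pgF N 1 (FreeGroup.mk w) = _
  rw [pgF_mk N anti, pgl_eq_pg, List.length_map]
  unfold pg
  refine Finset.sum_congr rfl fun j hj => ?_
  have hj' := Finset.mem_range.1 hj
  beta_reduce
  rw [path_vx_le _ j (by rw [List.length_map]; omega),
    path_vx_le _ (j + 1) (by rw [List.length_map]; omega), one_mul, one_mul]

end Path

end Pool.Agent.Lib.MP_8f66f0_al_Nil
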