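import Mathlib
import Pool.Agent.Lib.MP_8f66f0_al_Mixed.RootB
import Pool.Agent.Lib.MP_8f66f0_al_Nil.Path

namespace Pool.Agent.Lib.MP_8f66f0_al_Wall
end Pool.Agent.Lib.MP_8f66f0_al_Wall

/-! # Coc


PROOF. Fix `x`, `c = pr Γ x`, and take `K, f, α, D, L, ρ, deg` from `exists_sup hb c` (Mixed/SynM.lean),
`N a = f (nn a)`, so `N (c a) = N a + ρ`, `L (f z) = Lc b c z`. Even elements (products of two of the
`N a`, `ρ`) commute with everything of the form `N a`, `ρ`; `ρ = N c - N 1`, `ρ * N a = - N a * ρ`,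
`ρ * ρ = 0`. Put `P = pgF N 1 x - ρ * N 1`. Then `mixPoly k b h x = 2 Σ GG k m * L (pgF N 1 h⁻¹ * P ^ m)`.
Let `v = pr Γ h`, `c' = v c v⁻¹ = pr Γ (h x h⁻¹)`. By `rootB_trans` (Mixed/RootB.lean) with `x := v⁻¹`:
`Lc b c' z = Lc b c (MP_8f66f0_al_ChernS.trans v⁻¹ z)` (as `v⁻¹ c' v = c`), and `trans v⁻¹ (nn a) = nn (v⁻¹ a)` (`trans_nn`),
so `mixPoly k b g (h x h⁻¹) = 2 Σ GG k m * L (pgF N v⁻¹ g⁻¹ * P' ^ m)` with
`P' = pgF N v⁻¹ (h x h⁻¹) - (N (v⁻¹ c') - N v⁻¹) * N v⁻¹`; here `v⁻¹ c' = c v⁻¹`, so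
`N (v⁻¹ c') - N v⁻¹ = ρ`. By `pgF_mul`: `pgF N v⁻¹ (h x h⁻¹) = pgF N v⁻¹ h + pgF N 1 x + pgF N c h⁻¹`, and
`pgF N 1 h⁻¹ = - pgF N v⁻¹ h` (`pgF_inv`), `pgF N c h⁻¹ = pgF N 1 h⁻¹ + ρ (N v⁻¹ - N 1)` (`pgF_period`).
So `pgF N v⁻¹ (h x h⁻¹) = pgF N 1 x + ρ (N v⁻¹ - N 1)` and `P' = P`. Finally
`pgF N 1 (g h)⁻¹ = pgF N 1 h⁻¹ + pgF N v⁻¹ g⁻¹`. -/

set_option autoImplicit false
set_option linter.unusedSectionVars false
set_option linter.unusedVariables false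

namespace Pool.Agent.Lib.MP_8f66f0_al_Nil

open Pool.Agent.Lib.MP_8f66f0_al_Plus Pool.Agent.Lib.MP_8f66f0_al_Wall
open Pool.Agent.Lib.MP_8f66f0_al_FinQ Pool.Agent.Lib.MP_8f66f0_al_Uni
  Pool.Agent.Lib.MP_8f66f0_al_ChernS Pool.Agent.Lib.MP_8f66f0_al_Mixed


section Coc

variable {Γ : Type*} [Group Γ] {k : ℕ} {b : Γ → List Γ → ℤ}

theorem mixPoly_coc (hb : IsMixed k b) (g h x : FreeGroup Γ) :
    mixPoly k b (g * h) x = mixPoly k b g (h * x * h⁻¹) + mixPoly k b h x := by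
  set c := pr Γ x with hc
  set v := pr Γ h with hv
  obtain ⟨K, _, f, α, D, L, ρ, deg, SS⟩ := exists_sup hb c
  set N : Γ → K := fun a => f (nn a) with hN
  have anti : ∀ a a', N a * N a' = -(N a' * N a) := SS.anti
  have sq : ∀ a, N a * N a = 0 := SS.sq
  have period : ∀ a, N (c * a) = N a + ρ := SS.period
  have hρ : N c - N 1 = ρ := by
    have h1 := period 1
    rw [mul_one] at h1
    rw [h1]
    abel
  set P : K := pgF N 1 x - ρ * N 1 with hP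
  have hA : ∀ y : FreeGroup Γ, mixPoly k b y x =
      2 * ∑ m ∈ Finset.range k, GG k m * L (pgF N 1 y⁻¹ * P ^ m) := by
    intro y
    unfold mixPoly
    congr 1
    refine Finset.sum_congr rfl fun m _ => ?_
    congr 1
    have e : f (nn c) - f (nn 1) = ρ := hρ
    have e0 : f (pgF nn 1 y⁻¹ * (pgF nn 1 x - (nn c - nn 1) * nn 1) ^ m) =
        pgF N 1 y⁻¹ * P ^ m := by
      rw [map_mul f, map_pow f, map_sub f, map_mul f, map_sub f, pgF_map f, pgF_map f, e]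
    rw [← hc, ← SS.L_f, e0]
  have hc' : pr Γ (h * x * h⁻¹) = v * c * v⁻¹ := by
    rw [map_mul, map_mul, map_inv]
  have htr : ∀ z, Lc b (v * c * v⁻¹) z = Lc b c (MP_8f66f0_al_ChernS.trans v⁻¹ z) := by
    intro z
    rw [← rootB_trans hb v⁻¹ (v * c * v⁻¹) z]
    congr 2
    group
  have hmap : ∀ (y : FreeGroup Γ), f (MP_8f66f0_al_ChernS.trans v⁻¹ (pgF nn 1 y)) = pgF N v⁻¹ y := by
    intro y
    rw [pgF_map]
    have e1 : (fun a : Γ => MP_8f66f0_al_ChernS.trans v⁻¹ (nn a : MonoidAlgebra ℤ (FreeMonoid Γ))) =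
        fun a => nn (v⁻¹ * a) := by
      funext a
      exact trans_nn v⁻¹ a
    rw [e1, pgF_map]
    have e2 := pgF_trans N v⁻¹ 1 y
    rw [mul_one] at e2
    exact e2
  have hxx : pgF N v⁻¹ (h * x * h⁻¹) = pgF N 1 x + ρ * (N v⁻¹ - N 1) := by
    rw [pgF_mul N anti, pgF_mul N anti, ← hv, inv_mul_cancel, map_mul, ← hv, ← hc]
    have e1 : v⁻¹ * (v * c) = c * 1 := by group
    rw [e1, pgF_period N anti sq c ρ period, pgF_inv N anti, map_inv, ← hv, one_mul]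
    abel
  have hB : mixPoly k b g (h * x * h⁻¹) =
      2 * ∑ m ∈ Finset.range k, GG k m * L (pgF N v⁻¹ g⁻¹ * P ^ m) := by
    unfold mixPoly
    congr 1
    refine Finset.sum_congr rfl fun m _ => ?_
    congr 1
    have e1 : v⁻¹ * (v * c * v⁻¹) = c * v⁻¹ := by group
    have e2 : f (nn (c * v⁻¹)) - f (nn v⁻¹) = ρ := by
      have h1 : f (nn (c * v⁻¹)) = f (nn v⁻¹) + ρ := period v⁻¹
      rw [h1]
      abel
    have e3 : f (nn v⁻¹) = N v⁻¹ := rfl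
    have e4 : pgF N 1 x + ρ * (N v⁻¹ - N 1) - ρ * N v⁻¹ = P := by
      rw [hP, mul_sub]
      abel
    have e0 : f (MP_8f66f0_al_ChernS.trans v⁻¹ (pgF nn 1 g⁻¹ *
        (pgF nn 1 (h * x * h⁻¹) - (nn (v * c * v⁻¹) - nn 1) * nn 1) ^ m)) =
        pgF N v⁻¹ g⁻¹ * P ^ m := by
      rw [map_mul (MP_8f66f0_al_ChernS.trans v⁻¹), map_pow (MP_8f66f0_al_ChernS.trans v⁻¹), map_sub (MP_8f66f0_al_ChernS.trans v⁻¹), map_mul (MP_8f66f0_al_ChernS.trans v⁻¹),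
        map_sub (MP_8f66f0_al_ChernS.trans v⁻¹), trans_nn, trans_nn, e1, mul_one, map_mul f, map_pow f, map_sub f,
        map_mul f, map_sub f, hmap, hmap, hxx, e2, e3, e4]
    rw [hc', htr, ← SS.L_f, e0]
  have hgh : pgF N 1 (g * h)⁻¹ = pgF N 1 h⁻¹ + pgF N v⁻¹ g⁻¹ := by
    rw [mul_inv_rev, pgF_mul N anti, map_inv, ← hv, one_mul]
  rw [hA, hA, hB, hgh, ← mul_add, ← Finset.sum_add_distrib]
  congr 1
  refine Finset.sum_congr rfl fun m _ => ?_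
  rw [add_mul, map_add]
  ring

end Coc

end Pool.Agent.Lib.MP_8f66f0_al_Nil
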