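import Mathlib
import Pool.Agent.Lib.MP_8f66f0_al_ChernS.Syn
import Pool.Agent.Lib.MP_8f66f0_al_Nil.Path
import Pool.Agent.Lib.MP_8f66f0_al_Uni.Deg

namespace Pool.Agent.Lib.MP_8f66f0_al_Wall
end Pool.Agent.Lib.MP_8f66f0_al_Wall

/-! # Deg


PROOF. (1) A universal ring: let `I` be the ideal of all `z` in `MonoidAlgebra ℤ (FreeMonoid Γ)` with
`Lc b c (u * z * v) = 0` for all `c, u, v` (two-sided, compare `synGen_I` in ChernS/SynGen.lean), `K` the
quotient, `f` the projection, `L c : K →+ ℤ` with `L c (f z) = Lc b c z`. `N a = f (nn a)` anticommute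
(`hb.alternating`, compare `exists_alt` in Mixed/SynA.lean). (2) `DegLT π d` for functions with values in `K`:
if `F : FreeGroup Γ → K` has `DegLT π d F` and `L' : Γ → K →+ ℤ` then `g ↦ L' (pr Γ g) (F g)` has degree
less than `d` (induction, as `π (n g) = π g` for `n ∈ π.ker`); the same for `g ↦ L' (pr Γ (g * h)) (F g)` and
for `h ↦ L' (pr Γ (g * h)) (F h)`. (3) Products of functions with values in the noncommutative ring `K`:
`DegLT.mul_aux` (Uni/Deg.lean) holds with the same proof (replace the last `ring` by `noncomm_ring`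
or `simp [sub_mul, mul_sub]`). (4) `g ↦ pgF N u g`, `g ↦ pgF N u (g * h)`, `h ↦ pgF N u (g * h)`,
`h ↦ pgF N u h⁻¹` have `DegLT π 2` (`pgF_mul`: for `n ∈ π.ker` the difference is `pgF N u' n` for some
`u'` which depends only on the image in `Γ`; `degLT_one_of_factor`), functions which factor through `π` have
`DegLT π 1`. So the `m`-th power of the even element has `DegLT π (m + 1)`, and with the factor
`pgF N 1 h⁻¹` `DegLT π (m + 2)`, `m + 2 ≤ k + 1`. (`IsConj c (π (g h))` depends only on the images: treat the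
`if` in `psiW` by `DegLT.mul_factor` or directly by taking `L' = 0` outside the class.) -/

set_option autoImplicit false
set_option linter.unusedSectionVars false
set_option linter.unusedVariables false

namespace Pool.Agent.Lib.MP_8f66f0_al_Nil

open Pool.Agent.Lib.MP_8f66f0_al_Plus Pool.Agent.Lib.MP_8f66f0_al_Wall
open Pool.Agent.Lib.MP_8f66f0_al_FinQ Pool.Agent.Lib.MP_8f66f0_al_Uni
  Pool.Agent.Lib.MP_8f66f0_al_ChernS Pool.Agent.Lib.MP_8f66f0_al_Mixed


section Deg

/-- composition with additive maps which depend on the image only -/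
theorem deg_comp {G Γ : Type*} [Group G] [Group Γ] {M M' : Type*} [AddCommGroup M]
    [AddCommGroup M'] {π : G →* Γ} {d : ℕ} {F : G → M} (hF : DegLT π d F) (L' : G → M →+ M')
    (hL : ∀ x y, π x = π y → L' x = L' y) : DegLT π d (fun g => L' g (F g)) := by
  induction d generalizing F with
  | zero =>
    intro g
    change L' g (F g) = 0
    rw [hF g, map_zero]
  | succ d ih =>
    intro n hn
    refine (ih (hF n hn)).congr fun g => ?_
    have h1 : L' (n * g) = L' g :=
      hL _ _ (by rw [map_mul, MonoidHom.mem_ker.mp hn, one_mul])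
    change L' g (F (n * g) - F g) = L' (n * g) (F (n * g)) - L' g (F g)
    rw [h1, map_sub]

/-- products with values in a noncommutative ring -/
theorem deg_mul {G Γ : Type*} [Group G] [Group Γ] {π : G →* Γ} {S : Type*} [Ring S] (n : ℕ) :
    ∀ (a b : ℕ) (u v : G → S),
    a + b ≤ n + 1 → DegLT π a u → DegLT π b v → DegLT π n (fun y => u y * v y) := by
  induction n with
  | zero =>
    intro a b u v hab hu hv
    rcases Nat.eq_zero_or_pos a with rfl | ha
    · intro x
      change u x * v x = 0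
      rw [hu x, zero_mul]
    · obtain rfl : b = 0 := by omega
      intro x
      change u x * v x = 0
      rw [hv x, mul_zero]
  | succ n ih =>
    intro a b u v hab hu hv
    rcases Nat.eq_zero_or_pos a with rfl | ha
    · exact DegLT.zero.congr fun x => by rw [hu x, zero_mul]
    rcases Nat.eq_zero_or_pos b with rfl | hb
    · exact DegLT.zero.congr fun x => by rw [hv x, mul_zero]
    obtain ⟨a, rfl⟩ := Nat.exists_eq_succ_of_ne_zero ha.ne'
    obtain ⟨b, rfl⟩ := Nat.exists_eq_succ_of_ne_zero hb.ne'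
    intro r hr
    have hv' : DegLT π (b + 1) (fun y => v (r * y)) :=
      (hv.translate r 1).congr fun x => by rw [mul_one]
    have h1 := ih a (b + 1) _ _ (by omega) (hu r hr) hv'
    have h2 := ih (a + 1) b _ _ (by omega) hu (hv r hr)
    refine (h1.add h2).congr fun y => ?_
    simp only [sub_mul, mul_sub]
    abel

theorem deg_pow {G Γ : Type*} [Group G] [Group Γ] {π : G →* Γ} {S : Type*} [Ring S] {E : G → S}
    (hE : DegLT π 2 E) (m : ℕ) : DegLT π (m + 1) (fun y => E y ^ m) := by
  induction m with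
  | zero =>
    refine degLT_one_of_factor fun x y _ => ?_
    rw [pow_zero, pow_zero]
  | succ m ih =>
    refine (deg_mul (m + 1 + 1) (m + 1) 2 _ _ (by omega) ih hE).congr fun y => ?_
    rw [pow_succ]

universe u

variable {Γ : Type u} [Group Γ] {k : ℕ} {b : Γ → List Γ → ℤ}

/-- the universal ring -/
theorem deg_exists (hb : IsMixed k b) : ∃ (K : Type u) (_ : Ring K)
    (f : MonoidAlgebra ℤ (FreeMonoid Γ) →+* K) (L : Γ → K →+ ℤ),
    (∀ c x, L c (f x) = Lc b c x) ∧
      ∀ a a', f (nn a) * f (nn a') = -(f (nn a') * f (nn a)) := by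
  choose K iK f L hf hL hker using fun c : Γ =>
    exists_syn (S := ℤ) (fun w : FreeMonoid Γ => b c w.toList)
  let _ : ∀ c, Ring (K c) := iK
  refine ⟨∀ c, K c, inferInstance, RingHom.pi f,
    fun c => (L c).comp (Pi.evalAddMonoidHom K c), fun c x => hL c x, fun a a' => ?_⟩
  funext c
  change f c (nn a) * f c (nn a') = -(f c (nn a') * f c (nn a))
  rw [eq_neg_iff_add_eq_zero, ← map_mul, ← map_mul, ← map_add, hker]
  intro u v
  unfold nn
  rw [MonoidAlgebra.single_mul_single, MonoidAlgebra.single_mul_single, mul_add, add_mul,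
    map_add, mul_one, syn_val, syn_val, one_mul, one_mul]
  have h := hb.alternating c u.toList a a' v.toList
  have e1 : u.toList ++ (FreeMonoid.of a * FreeMonoid.of a').toList ++ v.toList =
      u.toList ++ a :: a' :: v.toList := by
    rw [FreeMonoid.toList_mul, FreeMonoid.toList_of, FreeMonoid.toList_of]
    simp
  have e2 : u.toList ++ (FreeMonoid.of a' * FreeMonoid.of a).toList ++ v.toList =
      u.toList ++ a' :: a :: v.toList := by
    rw [FreeMonoid.toList_mul, FreeMonoid.toList_of, FreeMonoid.toList_of]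
    simp
  rw [e1, e2, h]
  ring

theorem deg_pgF {K : Type*} [Ring K] (N : Γ → K) (anti : ∀ a b, N a * N b = -(N b * N a)) (u : Γ) :
    DegLT (pr Γ) 2 (fun g => pgF N u g) := by
  intro n hn
  refine degLT_one_of_factor fun x y _ => ?_
  have h1 : pr Γ n = 1 := MonoidHom.mem_ker.mp hn
  have h2 : ∀ x, pgF N u (n * x) - pgF N u x = pgF N u n := fun x => by
    rw [pgF_mul N anti, h1, mul_one, add_sub_cancel_right]
  rw [h2, h2]

/-- the even element -/
noncomputable def deg_E {K : Type*} [Ring K] (N : Γ → K) (x : FreeGroup Γ) : K :=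
  pgF N 1 x - (N (pr Γ x) - N 1) * N 1

theorem deg_E_two {K : Type*} [Ring K] (N : Γ → K) (anti : ∀ a b, N a * N b = -(N b * N a)) :
    DegLT (pr Γ) 2 (fun g => deg_E N g) := by
  refine (deg_pgF N anti 1).sub (DegLT.succ (degLT_one_of_factor fun x y h => ?_))
  rw [h]

open Classical in
/-- the formula for the weighted function -/
theorem deg_formula {K : Type*} [Ring K] (f : MonoidAlgebra ℤ (FreeMonoid Γ) →+* K)
    (L : Γ → K →+ ℤ) (hL : ∀ c x, L c (f x) = Lc b c x) (c : Γ) (g h : FreeGroup Γ) :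
    psiW (pr Γ) c (mixPoly k b) g h = 2 * ∑ m ∈ Finset.range k, GG k m *
      (if IsConj c (pr Γ (g * h)) then L (pr Γ (g * h)) else 0)
        (pgF (fun a => f (nn a)) 1 h⁻¹ * deg_E (fun a => f (nn a)) (g * h) ^ m) := by
  unfold psiW
  by_cases hc : IsConj c (pr Γ (g * h))
  · rw [if_pos hc, if_pos hc]
    unfold mixPoly
    congr 1
    refine Finset.sum_congr rfl fun m _ => ?_
    congr 1
    have e : f (pgF nn 1 h⁻¹ * (pgF nn 1 (g * h) - (nn (pr Γ (g * h)) - nn 1) * nn 1) ^ m) =
        pgF (fun a => f (nn a)) 1 h⁻¹ * deg_E (fun a => f (nn a)) (g * h) ^ m := by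
      unfold deg_E
      rw [f.map_mul, f.map_pow, f.map_sub, f.map_mul, f.map_sub, pgF_map, pgF_map]
    rw [← e, hL]
  · rw [if_neg hc, if_neg hc]
    simp

theorem mixPoly_degL (hb : IsMixed k b) (c : Γ) (h : FreeGroup Γ) :
    DegLT (pr Γ) (k + 1) (fun g => psiW (pr Γ) c (mixPoly k b) g h) := by
  classical
  obtain ⟨K, _, f, L, hL, anti⟩ := deg_exists hb
  set N : Γ → K := fun a => f (nn a) with hN
  have hE : DegLT (pr Γ) 2 (fun g => deg_E N (g * h)) :=
    ((deg_E_two N anti).translate 1 h).congr fun g => by rw [one_mul]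
  have key : ∀ m ∈ Finset.range k, DegLT (pr Γ) (k + 1) (fun g => GG k m *
      (if IsConj c (pr Γ (g * h)) then L (pr Γ (g * h)) else 0)
        (pgF N 1 h⁻¹ * deg_E N (g * h) ^ m)) := by
    intro m hm
    rw [Finset.mem_range] at hm
    have h1 : DegLT (pr Γ) (m + 1) (fun g => pgF N 1 h⁻¹ * deg_E N (g * h) ^ m) :=
      deg_mul (m + 1) 1 (m + 1) _ _ (by omega)
        (degLT_one_of_factor fun _ _ _ => rfl) (deg_pow hE m)
    have h2 := deg_comp h1 (fun g => if IsConj c (pr Γ (g * h)) then L (pr Γ (g * h)) else 0)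
      (fun x y hxy => by rw [map_mul, map_mul, hxy])
    exact (h2.comp_hom (AddMonoidHom.mulLeft (GG k m))).mono (by omega)
  have hsum := (DegLT.sum (Finset.range k) key).comp_hom (AddMonoidHom.mulLeft (2 : ℤ))
  refine hsum.congr fun g => ?_
  rw [deg_formula f L hL]
  rfl

theorem mixPoly_degR (hb : IsMixed k b) (c : Γ) (g : FreeGroup Γ) :
    DegLT (pr Γ) (k + 1) (fun h => psiW (pr Γ) c (mixPoly k b) g h) := by
  classical
  obtain ⟨K, _, f, L, hL, anti⟩ := deg_exists hb
  set N : Γ → K := fun a => f (nn a) with hN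
  have hE : DegLT (pr Γ) 2 (fun h => deg_E N (g * h)) :=
    ((deg_E_two N anti).translate g 1).congr fun h => by rw [mul_one]
  have key : ∀ m ∈ Finset.range k, DegLT (pr Γ) (k + 1) (fun h => GG k m *
      (if IsConj c (pr Γ (g * h)) then L (pr Γ (g * h)) else 0)
        (pgF N 1 h⁻¹ * deg_E N (g * h) ^ m)) := by
    intro m hm
    rw [Finset.mem_range] at hm
    have h1 : DegLT (pr Γ) (m + 2) (fun h => pgF N 1 h⁻¹ * deg_E N (g * h) ^ m) :=
      deg_mul (m + 2) 2 (m + 1) _ _ (by omega) (deg_pgF N anti 1).inv (deg_pow hE m)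
    have h2 := deg_comp h1 (fun h => if IsConj c (pr Γ (g * h)) then L (pr Γ (g * h)) else 0)
      (fun x y hxy => by rw [map_mul, map_mul, hxy])
    exact (h2.comp_hom (AddMonoidHom.mulLeft (GG k m))).mono (by omega)
  have hsum := (DegLT.sum (Finset.range k) key).comp_hom (AddMonoidHom.mulLeft (2 : ℤ))
  refine hsum.congr fun h => ?_
  rw [deg_formula f L hL]
  rfl

end Deg

end Pool.Agent.Lib.MP_8f66f0_al_Nil
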