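import Mathlib
import Pool.Agent.Lib.MP_8f66f0_al_Mixed.PP
import Pool.Agent.Lib.MP_8f66f0_al_Mixed.SynM
import Pool.Agent.Lib.MP_8f66f0_al_Nil.Path

namespace Pool.Agent.Lib.MP_8f66f0_al_Wall
end Pool.Agent.Lib.MP_8f66f0_al_Wall

/-! # Diag


PROOF. Notation as in Coc.lean. `pgF N 1 x⁻¹ = - pgF N c⁻¹ x` and `pgF N 1 x = pgF N (c c⁻¹) x =
pgF N c⁻¹ x + ρ (N 1 - N c⁻¹) = pgF N c⁻¹ x + ρ ρ = pgF N c⁻¹ x`. So
`mixPoly k b x x = - 2 Σ GG k m * L ((P + ρ N 1) P ^ m)`. Put `y m = N 1 * P ^ m` (for `m ≤ k`); as in the proof of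
`P1` (Mixed/PP.lean) `D P = 2 ρ` (here use `pgF_eq_pg` to compute `D (pgF N 1 x) = ρ`: the sum of
`N (v (j+1)) - N (v j)` telescopes to `N c - N 1`), so `D (y (m+1)) = P^(m+1) - N 1 * D (P^(m+1)) =
P^(m+1) + 2 (m+1) ρ N 1 P^m`, and `(P + ρ N 1) P^m = D (y (m+1)) - (2 m + 1) ρ y m`. `pp_abel` gives
`Σ GG k m * L (...) = - GG k 0 * L (ρ * N 1)`, and `L (ρ N 1) = - L (D (N 1)) = - L 1 = - b c []`.
(If `x` has the word `w` (`pgF_eq_pg`) you can also use `P1` itself: `∑ t, exE m n (N (v (t + ·))) =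
(P + ρ N 0) P ^ m` is in its proof; or `epsM_sum` of Mixed/RootB.lean.) -/

set_option autoImplicit false
set_option linter.unusedSectionVars false
set_option linter.unusedVariables false

namespace Pool.Agent.Lib.MP_8f66f0_al_Nil

open Pool.Agent.Lib.MP_8f66f0_al_Plus Pool.Agent.Lib.MP_8f66f0_al_Wall
open Pool.Agent.Lib.MP_8f66f0_al_FinQ Pool.Agent.Lib.MP_8f66f0_al_Uni
  Pool.Agent.Lib.MP_8f66f0_al_ChernS Pool.Agent.Lib.MP_8f66f0_al_Mixed


section Diag

variable {Γ : Type*} [Group Γ] {k : ℕ} {b : Γ → List Γ → ℤ}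

/-- The part of the proof of `P1` after the summation. -/
lemma diag_abel {c : Γ} {K : Type*} [Ring K] {f : MonoidAlgebra ℤ (FreeMonoid Γ) →+* K}
    {α : K →+* K} {D : K →+ K} {L : K →+ ℤ} {ρ : K} {deg : ℕ → AddSubgroup K}
    (S : SupRing k b c K f α D L ρ deg) (n : ℕ) (N : ℕ → K) (v : ℕ → Γ)
    (hN : ∀ j, N j = f (nn (v j))) (hρ : ρ = N n - N 0) (P : K) (hP : P = pg N n - ρ * N 0) :
    ∑ m ∈ Finset.range k, GG k m * L (P ^ (m + 1) + ρ * N 0 * P ^ m) = GG k 0 * L 1 := by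
  have anti : ∀ i j, N i * N j = -(N j * N i) := fun i j => by
    rw [hN, hN]
    exact S.anti _ _
  have sqr : ∀ i, N i * N i = 0 := fun i => by
    rw [hN]
    exact S.sq _
  have rN : ∀ j, ρ * N j = -(N j * ρ) := by
    intro j
    rw [hρ, sub_mul, mul_sub, anti n j, anti 0 j]
    abel
  have hdN : ∀ j, N j ∈ deg 1 := fun j => by
    rw [hN]
    exact S.nn_deg _
  have hdρ : ρ ∈ deg 1 := by
    rw [hρ]
    exact sub_mem (hdN n) (hdN 0)
  have hαN : ∀ j, α (N j) = - N j := fun j => by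
    rw [hN]
    exact S.α_nn _
  have hDN : ∀ j, D (N j) = 1 := fun j => by
    rw [hN]
    exact S.D_nn _
  have hαρ : α ρ = - ρ := by
    rw [hρ, map_sub, hαN, hαN]
    abel
  have hDρ : D ρ = 0 := by
    rw [hρ, map_sub, hDN, hDN, sub_self]
  have c2 : ∀ i j l, Commute (N i * N j) (N l) := by
    intro i j l
    show N i * N j * N l = N l * (N i * N j)
    rw [mul_assoc, anti j l, mul_neg, ← mul_assoc, anti i l, neg_mul, neg_neg, mul_assoc]
  have cr : ∀ j l, Commute (ρ * N j) (N l) := by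
    intro j l
    show ρ * N j * N l = N l * (ρ * N j)
    rw [mul_assoc, anti j l, mul_neg, ← mul_assoc, rN l, neg_mul, neg_neg, mul_assoc]
  have cP : ∀ l, Commute P (N l) := by
    intro l
    rw [hP]
    refine Commute.sub_left ?_ (cr 0 l)
    unfold pg
    exact Commute.sum_left _ _ _ fun j _ => c2 j (j + 1) l
  have cPρ : Commute P ρ := by
    rw [hρ]
    exact (cP n).sub_right (cP 0)
  have hαP : α P = P := by
    rw [hP, map_sub, map_mul, hαρ, hαN, neg_mul_neg]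
    congr 1
    unfold pg
    rw [map_sum]
    refine Finset.sum_congr rfl fun j _ => ?_
    rw [map_mul, hαN, hαN, neg_mul_neg]
  have hDP : D P = 2 * ρ := by
    have h1 : D (pg N n) = ρ := by
      unfold pg
      rw [map_sum, hρ, ← Finset.sum_range_sub N n]
      refine Finset.sum_congr rfl fun j _ => ?_
      rw [S.D_mul, hDN, hDN, hαN, one_mul, mul_one, sub_eq_add_neg]
    rw [hP, map_sub, h1, S.D_mul, hDρ, hαρ, hDN, zero_mul, zero_add, mul_one, sub_neg_eq_add,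
      two_mul]
  have hdP : P ∈ deg 2 := by
    rw [hP]
    refine sub_mem ?_ (S.mul_deg 1 1 _ _ hdρ (hdN 0))
    unfold pg
    exact sum_mem fun j _ => S.mul_deg 1 1 _ _ (hdN j) (hdN (j + 1))
  have hab := pp_abel S (fun m => N 0 * P ^ m)
    (by
      have h1 := S.mul_deg 1 (1 + 2 * k) _ _ hdρ (S.mul_deg 1 (2 * k) _ _ (hdN 0) (pp_pow_mem S hdP k))
      have h2 : 1 + (1 + 2 * k) = 2 * k + 2 := by omega
      rwa [h2] at h1)
    (fun m => P ^ (m + 1) + ρ * N 0 * P ^ m)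
    (by
      intro m _
      show P ^ (m + 1) + ρ * N 0 * P ^ m =
        D (N 0 * P ^ (m + 1)) - (2 * (m : K) + 1) * (ρ * (N 0 * P ^ m))
      have h1 : N 0 * (2 * ((m : K) + 1) * (ρ * P ^ m)) =
          - (2 * ((m : K) + 1) * (ρ * N 0 * P ^ m)) := by
        have h2 : Commute (N 0) (2 * ((m : K) + 1)) :=
          ((Commute.ofNat_right (N 0) 2).mul_right
            ((Nat.commute_cast (N 0) m).add_right (Commute.one_right (N 0))))
        rw [← mul_assoc, h2.eq, mul_assoc, ← mul_assoc (N 0) ρ, rN 0, neg_mul, mul_neg, neg_neg]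
      rw [S.D_mul, hDN, hαN, one_mul, pp_D_pow S hDP hαP cPρ m, neg_mul, h1, neg_neg,
        ← mul_assoc ρ (N 0)]
      generalize ρ * N 0 * P ^ m = Z
      noncomm_ring)
  rw [hab]
  have h0 : L (ρ * (N 0 * P ^ 0)) = - L 1 := by
    rw [pow_zero, mul_one, ← hDN 0, pp_LD S, neg_neg]
  show - (GG k 0 * L (ρ * (N 0 * P ^ 0))) = _
  rw [h0]
  ring

lemma diag_one (c : Γ) : Lc b c (1 : MonoidAlgebra ℤ (FreeMonoid Γ)) = b c [] := by
  unfold Lc
  rw [MonoidAlgebra.one_def, lin_single, one_mul]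
  rfl

theorem mixPoly_diag (hb : IsMixed k b) (hk : 0 < k) (x : FreeGroup Γ) :
    mixPoly k b x x = -(2 * (GG k 0 * b (pr Γ x) [])) := by
  obtain ⟨K, _, f, α, D, L, ρ, deg, S⟩ := exists_sup hb (pr Γ x)
  have anti : ∀ a a', (fun a => f (nn a)) a * (fun a => f (nn a)) a' =
      -((fun a => f (nn a)) a' * (fun a => f (nn a)) a) := S.anti
  obtain ⟨w, hw, hwp⟩ := pgF_eq_pg (fun a => f (nn a)) anti x
  have hρ1 : ρ = f (nn (pr Γ x)) - f (nn 1) := by
    have h := S.period 1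
    rw [mul_one] at h
    rw [h, add_sub_cancel_left]
  have rr : ρ * ρ = 0 := by
    rw [hρ1, sub_mul, mul_sub, mul_sub, S.sq, S.sq, S.anti (pr Γ x) 1]
    abel
  have v0 : vx w 0 = 1 := by
    rw [path_vx_le w 0 (Nat.zero_le _)]
    rfl
  have vn : vx w w.length = pr Γ x := by
    rw [path_vx_le w w.length le_rfl, List.take_length, hw]
  -- the inverse
  have hinv : pgF (fun a => f (nn a)) 1 x⁻¹ = - pgF (fun a => f (nn a)) 1 x := by
    have h1 := pgF_period (fun a => f (nn a)) anti S.sq (pr Γ x) ρ S.period (pr Γ x)⁻¹ x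
    have h2 := S.period (pr Γ x)⁻¹
    rw [mul_inv_cancel] at h2
    rw [mul_inv_cancel, inv_mul_cancel] at h1
    have h3 : f (nn 1) - f (nn (pr Γ x)⁻¹) = ρ := by rw [h2, add_sub_cancel_left]
    rw [pgF_inv _ anti, one_mul, h1]
    simp only [h3, rr, add_zero]
  have hab := diag_abel S w.length (fun j => f (nn (vx w j))) (vx w) (fun _ => rfl)
    (by simp only [v0, vn]; exact hρ1) _ rfl
  have key : ∀ m, Lc b (pr Γ x) (pgF nn 1 x⁻¹ *
      (pgF nn 1 x - (nn (pr Γ x) - nn 1) * nn 1) ^ m) =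
      - L ((pg (fun j => f (nn (vx w j))) w.length - ρ * f (nn (vx w 0))) ^ (m + 1) +
        ρ * f (nn (vx w 0)) * (pg (fun j => f (nn (vx w j))) w.length -
          ρ * f (nn (vx w 0))) ^ m) := by
    intro m
    rw [← S.L_f, map_mul f, map_pow f, map_sub f, map_mul f, map_sub f, pgF_map, pgF_map, hinv,
      hwp, ← hρ1, v0, neg_mul, map_neg]
    congr 2
    rw [pow_succ', ← add_mul, sub_add_cancel]
  unfold mixPoly
  simp_rw [key]
  have h1 : L 1 = b (pr Γ x) [] := by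
    rw [← map_one f, S.L_f, diag_one]
  rw [← h1, ← hab]
  simp only [mul_neg, Finset.sum_neg_distrib]

end Diag

end Pool.Agent.Lib.MP_8f66f0_al_Nil
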