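import Mathlib
import Pool.Agent.Lib.MP_8f66f0_al_Uni.PowerTrick

namespace Pool.Agent.Lib.MP_8f66f0_al_ChernS
end Pool.Agent.Lib.MP_8f66f0_al_ChernS

namespace Pool.Agent.Lib.MP_8f66f0_al_Mixed
end Pool.Agent.Lib.MP_8f66f0_al_Mixed
namespace Pool.Agent.Lib.MP_8f66f0_al_Wall
end Pool.Agent.Lib.MP_8f66f0_al_Wall

/-! # Pair


PROOF. This is `pairing_zero` of Uni/PowerTrick.lean with weaker hypotheses: copy its proof and the proofs of
`stab_of_roots` (Uni/Phase.lean) and `phase_congr` (Uni/Frob.lean), in which the uniqueness of `l`-th roots is only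
used for roots of conjugates of `γ ^ l`. The prime `l` is now chosen in the infinite set `P`
(`Set.Infinite.exists_gt`). `hconj` replaces `hsep.2` (for the finitely many products of letters). -/

set_option autoImplicit false
set_option linter.unusedSectionVars false
set_option linter.unusedVariables false

namespace Pool.Agent.Lib.MP_8f66f0_al_Nil

open Pool.Agent.Lib.MP_8f66f0_al_Plus Pool.Agent.Lib.MP_8f66f0_al_Wall
open Pool.Agent.Lib.MP_8f66f0_al_FinQ Pool.Agent.Lib.MP_8f66f0_al_Uni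
  Pool.Agent.Lib.MP_8f66f0_al_ChernS Pool.Agent.Lib.MP_8f66f0_al_Mixed


section Pair

variable {G Γ : Type*} [Group G] [Group Γ] {ι : Type*} [Fintype ι] [DecidableEq ι]

theorem pair_stab_of_roots {γ : Γ} {l : ℕ} (hl : l.Prime) (K : ℕ)
    (huniq : ∀ a : Γ, a ^ l = γ ^ l → a = γ) (hroot : ∀ a : Γ, a ^ l ≠ γ) (x : List Γ)
    (hx : x.length = l ^ (K + 1)) (hc : IsConj (γ ^ l) x.prod) (j : ℕ) (hj : x.rotate j = x) :
    l ^ K ∣ j := by
  have hQ : 0 < l ^ (K + 1) := pow_pos hl.pos _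
  rcases (Nat.gcd_le_right j hQ).lt_or_eq with hlt | heq
  · obtain ⟨i, hi, hig⟩ := (Nat.dvd_prime_pow hl).1 (Nat.gcd_dvd_right j (l ^ (K + 1)))
    by_cases hiK : K ≤ i
    · exact (pow_dvd_pow l hiK).trans (hig ▸ Nat.gcd_dvd_left j (l ^ (K + 1)))
    · exfalso
      push Not at hiK
      obtain ⟨m, -, hm⟩ := Nat.exists_mul_mod_eq_gcd hlt
      have h1 : x.rotate (l ^ i) = x := by
        rw [← hig, ← hm, ← hx, List.rotate_mod]
        exact phase_rotate_mul x j hj m
      have h2 : x.length = l ^ (K + 1 - i) * l ^ i := by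
        rw [hx, ← pow_add]
        congr 1
        omega
      have h3 := phase_repeat x (g := l ^ i) (m := l ^ (K + 1 - i)) (by
        rw [hx]
        exact Nat.pow_le_pow_right hl.pos hi) h2 h1
      have h4 : x.prod = (x.take (l ^ i)).prod ^ (l ^ (K + 1 - i)) := by
        conv_lhs => rw [h3]
        exact phase_prod_flatten _ _
      have h5 : K + 1 - i = (K - 1 - i) + 1 + 1 := by omega
      rw [h4, h5, pow_succ, pow_mul, isConj_iff] at hc
      obtain ⟨u, hu⟩ := hc
      have h6 : (u⁻¹ * ((x.take (l ^ i)).prod ^ (l ^ (K - 1 - i + 1))) * u) ^ l = γ ^ l := by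
        have h9 := conj_pow (a := u⁻¹) (b := (x.take (l ^ i)).prod ^ (l ^ (K - 1 - i + 1)))
          (i := l)
        rw [inv_inv] at h9
        rw [h9, ← hu]
        group
      have h7 := huniq _ h6
      rw [pow_succ, pow_mul] at h7
      apply hroot (u⁻¹ * ((x.take (l ^ i)).prod ^ (l ^ (K - 1 - i))) * u)
      have h8 : (u⁻¹ * ((x.take (l ^ i)).prod ^ (l ^ (K - 1 - i))) * u) ^ l
          = u⁻¹ * ((x.take (l ^ i)).prod ^ (l ^ (K - 1 - i))) ^ l * u := by
        have h9 := conj_pow (a := u⁻¹) (b := (x.take (l ^ i)).prod ^ (l ^ (K - 1 - i))) (i := l)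
        rw [inv_inv] at h9
        exact h9
      rw [h8, h7]
  · have h1 : l ^ (K + 1) ∣ j := heq ▸ Nat.gcd_dvd_left j (l ^ (K + 1))
    exact (pow_dvd_pow l (Nat.le_succ K)).trans h1

theorem pair_phase_congr {π : G →* Γ} {γ : Γ} {l K : ℕ} (hl : l.Prime)
    (huniq : ∀ a : Γ, a ^ l = γ ^ l → a = γ) {θ : List Γ → ℤ}
    (hθ : IsPhase (γ ^ l) (l ^ (K + 1)) (l ^ K) θ) (B A : Matrix ι ι (MonoidAlgebra ℤ G)) :
    (l : ℤ) ∣ wsum B A (l ^ (K + 1)) (phaseFun π (γ ^ l) θ) -
      wsum B A (l ^ K) (phaseFun π γ (fun y => θ (List.replicate l y).flatten)) := by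
  classical
  have : Fact l.Prime := ⟨hl⟩
  have hq : 0 < l ^ K := pow_pos hl.pos K
  have h1 := wsum_frob (l := l) B A (l ^ K) hq (F := phaseFun π (γ ^ l) θ) (by
    intro w hw
    exact frob_phaseFun_rotate hθ (Nat.pow_le_pow_right hl.pos (Nat.le_succ K)) w
      (by rw [hw, pow_succ]))
  rw [← pow_succ] at h1
  have h2 : wsum B A (l ^ K) (phaseFun π γ (fun y => θ (List.replicate l y).flatten)) =
      wsum B A (l ^ K) (fun w => phaseFun π (γ ^ l) θ (List.replicate l w).flatten) := by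
    refine wsum_congr B A _ fun w hw => ?_
    have hev : Even w.length := by rw [hw]; exact even_two_mul _
    have hev1 : Even (w.rotate 1).length := by rw [List.length_rotate, hw]; exact even_two_mul _
    have hne : w ≠ [] := by
      rintro rfl
      rw [List.length_nil] at hw
      omega
    unfold phaseFun
    rw [frob_d0_replicate w hev, frob_rotate_replicate_flatten w hne, frob_d0_replicate _ hev1,
      frob_map_replicate_flatten, frob_map_replicate_flatten, frob_prod_replicate_flatten, map_pow]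
    have h3 : IsConj γ (π (d0 w).prod) ↔ IsConj (γ ^ l) (π (d0 w).prod ^ l) := by
      constructor
      · intro h
        exact h.pow l
      · intro h
        obtain ⟨g, hg⟩ := isConj_iff.mp h
        have h4 : (g⁻¹ * π (d0 w).prod * g) ^ l = γ ^ l := by
          have h9 := conj_pow (a := g⁻¹) (b := π (d0 w).prod) (i := l)
          rw [inv_inv] at h9
          rw [h9, ← hg]
          group
        have h5 := huniq _ h4
        refine isConj_iff.mpr ⟨g, ?_⟩
        rw [← h5]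
        group
    rw [h3]
  rw [h2]
  exact h1

theorem pairing_zero2 {R : Type*} [CommRing R] [IsDomain R] [CharZero R]
    (hdiv : ∀ x : R, x ≠ 0 → ∃ N : ℕ, ∀ l : ℕ, l.Prime → N < l → ¬ (l : R) ∣ x)
    {π : G →* Γ} {γ : Γ} (hγ : ∀ n : ℕ, 0 < n → γ ^ n ≠ 1) {P : Set ℕ} (hP : P.Infinite)
    (hprime : ∀ l ∈ P, l.Prime) (huniq : ∀ l ∈ P, ∀ x : Γ, x ^ l = γ ^ l → x = γ)
    (hconj : ∀ u : Γ, {l : ℕ | l ∈ P ∧ IsConj u (γ ^ l)}.Finite)
    (hroot : ∃ N : ℕ, ∀ l ∈ P, N < l → ∀ x : Γ, x ^ l ≠ γ)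
    {J a : ℕ} (ha : 0 < a) {D : R} (hD : D ≠ 0)
    (hfam : ∃ N : ℕ, ∀ l ∈ P, N < l →
      ∃ δ : G → G → R, IsPoly π (γ ^ l) J δ ((l : R) ^ a * D))
    {A B : Matrix ι ι (MonoidAlgebra ℤ G)}
    (hAB : EntIn ((kerI ℤ π) ^ (J + 1)) (A * B - 1))
    (hBA : EntIn ((kerI ℤ π) ^ (J + 1)) (B * A - 1))
    {δ : G → G → R} (hδ : IsPoly π γ J δ D) :
    mbil (bil (psiW π γ δ)) (baseMat R A) (baseMat R B) = 0 := by
  classical
  by_contra hne
  obtain ⟨N1, hN1⟩ := hdiv _ hne
  obtain ⟨N2, hN2⟩ := hdiv D hD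
  have hγ1 : γ ≠ 1 := fun h => hγ 1 one_pos (by rw [h, one_pow])
  obtain ⟨N4, hN4⟩ := hroot
  -- only finitely many primes occur for the products of letters
  have hfin : ∃ N5 : ℕ, ∀ l ∈ P, N5 < l → ∀ i j i' j' : ι, ∀ g h : G,
      (A i j).coeff g ≠ 0 → (B i' j').coeff h ≠ 0 → ¬ IsConj (γ ^ l) (π (g * h)) := by
    set T : Set G := {x | ∃ i j i' j' : ι, ∃ g h : G,
      (A i j).coeff g ≠ 0 ∧ (B i' j').coeff h ≠ 0 ∧ x = g * h} with hT
    have hTfin : T.Finite := by
      have : T ⊆ ⋃ i : ι, ⋃ j : ι, ⋃ i' : ι, ⋃ j' : ι,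
          Set.image2 (fun g h => g * h) ((A i j).coeff.support : Set G)
            ((B i' j').coeff.support : Set G) := by
        rintro x ⟨i, j, i', j', g, h, hg, hh, rfl⟩
        simp only [Set.mem_iUnion]
        exact ⟨i, j, i', j', g, Finsupp.mem_support_iff.mpr hg, h,
          Finsupp.mem_support_iff.mpr hh, rfl⟩
      refine Set.Finite.subset ?_ this
      refine Set.finite_iUnion fun i => Set.finite_iUnion fun j => Set.finite_iUnion fun i' =>
        Set.finite_iUnion fun j' => ?_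
      exact Set.Finite.image2 _ (Finset.finite_toSet _) (Finset.finite_toSet _)
    have hbig : (⋃ x ∈ T, {p : ℕ | p ∈ P ∧ IsConj (π x) (γ ^ p)}).Finite :=
      hTfin.biUnion fun x _ => hconj _
    obtain ⟨N5, hN5⟩ := hbig.bddAbove
    refine ⟨N5, fun l hl hlN i j i' j' g h hg hh hc => ?_⟩
    have hmem : l ∈ ⋃ x ∈ T, {p : ℕ | p ∈ P ∧ IsConj (π x) (γ ^ p)} := by
      simp only [Set.mem_iUnion]
      exact ⟨g * h, ⟨i, j, i', j', g, h, hg, hh, rfl⟩, hl, hc.symm⟩
    exact absurd (hN5 hmem) (not_le.mpr hlN)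
  obtain ⟨N5, hN5⟩ := hfin
  obtain ⟨N6, hN6⟩ := hfam
  obtain ⟨l, hlP, hlN⟩ := hP.exists_gt (N1 + N2 + N4 + N5 + N6 + 1)
  have hl := hprime l hlP
  have hx1 := hN1 l hl (by omega)
  have hx2 := hN2 l hl (by omega)
  have hx3 := huniq l hlP
  have hx4 := hN4 l hlP (by omega)
  have hx5 := hN5 l hlP (by omega)
  have hlpos : 0 < l := hl.pos
  set K : ℕ := a + 1 with hK
  -- the cocycle for the class of `γ ^ l`
  obtain ⟨δl, hδl⟩ := hN6 l hlP (by omega)
  have hγl : γ ^ l ≠ 1 := hγ l hlpos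
  -- the phase
  obtain ⟨θ, hθ⟩ := exists_phase (γ ^ l) (Q := l ^ (K + 1)) (q := l ^ K) (by positivity)
    (by positivity) (fun x hx hc j hj => pair_stab_of_roots hl K hx3 hx4 x hx hc j hj)
  have hAB' : EntIn ((kerI R π) ^ (J + 1)) (baseMat R A * baseMat R B - 1) := by
    have := EntIn.baseMat R hAB
    rwa [map_sub, map_mul, map_one] at this
  have hBA' : EntIn ((kerI R π) ^ (J + 1)) (baseMat R B * baseMat R A - 1) := by
    have := EntIn.baseMat R hBA
    rwa [map_sub, map_mul, map_one] at this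
  -- the pairing for `γ ^ l` vanishes
  have hzero : mbil (bil (psiW π (γ ^ l) δl)) (baseMat R A) (baseMat R B) = 0 := by
    rw [mbil_apply]
    refine Finset.sum_eq_zero fun i _ => Finset.sum_eq_zero fun j _ => ?_
    refine powerTrick_bil_eq_zero fun g h hg hh => ?_
    rw [psiW, if_neg]
    exact hx5 i j j i g h (powerTrick_coeff_baseMat A i j g hg)
      (powerTrick_coeff_baseMat B j i h hh)
  have hlR : (l : R) ≠ 0 := Nat.cast_ne_zero.mpr hl.ne_zero
  set c1 : ℤ := wsum B A (l ^ (K + 1)) (phaseFun π (γ ^ l) θ) with hc1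
  have hB1 := lemmaB hδl hγl (Q := l ^ (K + 1)) (q := l ^ K) (r := l) (pow_succ l K)
    (by positivity) hlpos (by
      refine ⟨(l : R) ^ (a - 1) * D, ?_⟩
      have e : a + (a + 1) = a + 2 + (a - 1) := by omega
      push_cast
      rw [hK]
      calc (l : R) ^ a * D * (l : R) ^ (a + 1) = (l : R) ^ (a + (a + 1)) * D := by
            rw [pow_add]; ring
        _ = (l : R) ^ (a + 1 + 1) * ((l : R) ^ (a - 1) * D) := by
            rw [e, pow_add]; ring) hθ hAB' hBA'
  rw [hzero, mul_zero, zero_sub, dvd_neg, wsum_cast, ← hc1] at hB1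
  have hldvd : (l : R) ∣ D * (c1 : R) := by
    obtain ⟨z, hz⟩ := hB1
    refine ⟨(l : R) * z, ?_⟩
    have hpa : (l : R) ^ a ≠ 0 := pow_ne_zero _ hlR
    apply mul_left_cancel₀ hpa
    rw [← mul_assoc, hz, hK]
    push_cast
    ring
  have hlc1 : (l : ℤ) ∣ c1 := by
    by_contra hnd
    have hcop : IsCoprime (l : ℤ) c1 :=
      (Prime.coprime_iff_not_dvd (Nat.prime_iff_prime_int.mp hl)).mpr hnd
    obtain ⟨u, v, huv⟩ := hcop
    apply hx2
    have huvR : (u : R) * (l : R) + (v : R) * (c1 : R) = 1 := by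
      have := congrArg (fun z : ℤ => (z : R)) huv
      push_cast at this
      exact this
    have hDe : D = (l : R) * (u * D) + v * (D * (c1 : R)) := by
      calc D = ((u : R) * (l : R) + (v : R) * (c1 : R)) * D := by rw [huvR, one_mul]
        _ = (l : R) * (u * D) + v * (D * (c1 : R)) := by ring
    rw [hDe]
    exact dvd_add (dvd_mul_right _ _) (dvd_mul_of_dvd_right hldvd _)
  have hpc := pair_phase_congr (π := π) hl hx3 hθ B A
  rw [← hc1] at hpc
  set cγ : ℤ := wsum B A (l ^ K)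
    (phaseFun π γ (fun y => θ (List.replicate l y).flatten)) with hcγ
  have hlcγ : (l : ℤ) ∣ cγ := by
    have := dvd_sub hlc1 hpc
    rwa [sub_sub_cancel] at this
  have hB2 := lemmaB hδ hγ1 (Q := l ^ K) (q := l ^ K) (r := 1) (mul_one _).symm
    (by positivity) one_pos (dvd_mul_left _ _) (isPhase_repeat hl hθ) hAB' hBA'
  rw [wsum_cast, ← hcγ, Nat.cast_one, one_mul] at hB2
  apply hx1
  have h1 : (l : R) ∣ mbil (bil (psiW π γ δ)) (baseMat R A) (baseMat R B) - D * (cγ : R) := by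
    refine dvd_trans ?_ hB2
    rw [Nat.cast_pow]
    exact dvd_pow_self _ (by omega)
  have h2 : (l : R) ∣ D * (cγ : R) := by
    obtain ⟨z, hz⟩ := hlcγ
    refine ⟨D * z, ?_⟩
    rw [hz]
    push_cast
    ring
  have := dvd_add h1 h2
  rwa [sub_add_cancel] at this

end Pair

end Pool.Agent.Lib.MP_8f66f0_al_Nil
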