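import Mathlib
import Pool.Agent.Lib.MP_8f66f0_al_Nil.Coc
import Pool.Agent.Lib.MP_8f66f0_al_Nil.Deg
import Pool.Agent.Lib.MP_8f66f0_al_Nil.Diag
import Pool.Agent.Lib.MP_8f66f0_al_Nil.Pair
import Pool.Agent.Lib.MP_8f66f0_al_Stab.Step
import Pool.Agent.Lib.MP_8f66f0_al_Uni.Change
import Pool.Agent.Lib.MP_8f66f0_al_Uni.PolyExists

namespace Pool.Agent.Lib.MP_8f66f0_al_Wall
end Pool.Agent.Lib.MP_8f66f0_al_Wall

/-! # ZeroMix


PROOF. `hb : IsMixed k b`, `b c [] ≠ 0`; restrict `b` to the class of `c` (`final_cls`, Mixed/Final.lean);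
`k > 0`, as for `k = 0` `hb.mixed c 1 [1]` reads `0 = 0 - b c []`. `R = ULift ℤ` (or prove it for `ℤ` and use
`IsPoly.map`, `mbil_chg`), `D = -(2 * (GG k 0 * b c [])) ≠ 0`, `δ = mixPoly k b`. `mixPoly_isPoly` from
the three modules above. `pairing_zero2` with `a = k`, `P` = all primes larger than the `N` of `RootU c`: `hfam`:
`lift k l b` (Mixed/RootA.lean) is mixed: `LiftOK` from `liftOK_of_roots` (Stab/RootL.lean; the support is the
class of `c`) and `liftL_mixed`; its value at `(c^l; [])` is `l^k b (c; [])`. `c` has infinite order: if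
`c^n = 1` then `nil_dvd` (Stab/Step.lean) gives that all `m` divide `2 GG k 0 b (c; [])`, as `c = c^(1 + n m)`.. .
`hroot`: `nil_dvd`: `x^l = c` gives `l ∣ 2 GG k 0 b (c; [])`. `hconj`: if `u` is conjugate to `c^(l0)` and to
`c^l`, then `l ∣ 2 GG k 0 (l0^k b (c; []))` by `nil_dvd` for `lift k l0 b`. -/

set_option autoImplicit false
set_option linter.unusedSectionVars false
set_option linter.unusedVariables false

namespace Pool.Agent.Lib.MP_8f66f0_al_Nil

open Pool.Agent.Lib.MP_8f66f0_al_Plus Pool.Agent.Lib.MP_8f66f0_al_Wall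
open Pool.Agent.Lib.MP_8f66f0_al_FinQ Pool.Agent.Lib.MP_8f66f0_al_Uni
  Pool.Agent.Lib.MP_8f66f0_al_ChernS Pool.Agent.Lib.MP_8f66f0_al_Mixed
  Pool.Agent.Lib.MP_8f66f0_al_Stab


section ZeroMix

theorem zeroMix_conj {Γ : Type*} [Group Γ] {k : ℕ} {b : Γ → List Γ → ℤ} (hb : IsMixed k b)
    {x y : Γ} (h : IsConj x y) : b x [] = b y [] := by
  obtain ⟨g, hg⟩ := isConj_iff.1 h
  have h1 := hb.equivariant g x []
  rw [List.map_nil, hg] at h1
  exact h1.symm

theorem mixPoly_isPoly {Γ : Type*} [Group Γ] {k : ℕ} {b : Γ → List Γ → ℤ} (hb : IsMixed k b)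
    (hk : 0 < k) (c : Γ) :
    IsPoly (pr Γ) c k (mixPoly k b) (-(2 * (GG k 0 * b c []))) where
  coc g h x _ := mixPoly_coc hb g h x
  diag x hx := by rw [mixPoly_diag hb hk, zeroMix_conj hb hx]
  degL h := mixPoly_degL hb c h
  degR g := mixPoly_degR hb c g

theorem zeroMix_GG (k m : ℕ) : GG k m ≠ 0 := by
  unfold GG
  refine mul_ne_zero (pow_ne_zero _ (by norm_num)) (Finset.prod_ne_zero_iff.2 fun j _ => ?_)
  positivity

theorem zeroMix_pos {Γ : Type*} [Group Γ] {k : ℕ} {b : Γ → List Γ → ℤ} (hb : IsMixed k b) {c : Γ}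
    (hc : b c [] ≠ 0) : 0 < k := by
  rcases Nat.eq_zero_or_pos k with h | h
  · exfalso
    subst h
    apply hc
    have h1 := hb.mixed c 1 [1]
    rw [hb.len _ _ (by simp), hb.len _ _ (by simp)] at h1
    simpa using h1
  · exact h

/-- Divisibility of a nonzero integer. -/
theorem zeroMix_div (x : ℤ) (hx : x ≠ 0) (l : ℕ) (h : (l : ℤ) ∣ x) : l ≤ x.natAbs := by
  have h1 := Int.natAbs_dvd_natAbs.mpr h
  rw [Int.natAbs_natCast] at h1
  exact Nat.le_of_dvd (Int.natAbs_pos.mpr hx) h1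

/-- The vanishing of the pairing over the integers. -/
theorem zeroMix_main {Γ : Type*} [Group Γ] {c : Γ} (h1 : RootU c) {k : ℕ}
    {b : Γ → List Γ → ℤ} (hb : IsMixed k b) (hc : b c [] ≠ 0)
    (hsupp : ∀ v : Γ, (∃ u, b v u ≠ 0) → IsConj c v) {n : ℕ}
    {A' B' : Matrix (Fin n) (Fin n) (MonoidAlgebra ℤ (FreeGroup Γ))}
    (hAB : EntIn ((kerI ℤ (pr Γ)) ^ (k + 1)) (A' * B' - 1))
    (hBA : EntIn ((kerI ℤ (pr Γ)) ^ (k + 1)) (B' * A' - 1)) :
    mbil (bil (psiW (pr Γ) c (mixPoly k b))) (baseMat ℤ A') (baseMat ℤ B') = 0 := by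
  have hk := zeroMix_pos hb hc
  obtain ⟨N, hN⟩ := h1
  have hZ : (2 * (GG k 0 * b c []) : ℤ) ≠ 0 :=
    mul_ne_zero two_ne_zero (mul_ne_zero (zeroMix_GG k 0) hc)
  have hLift : ∀ l : ℕ, l.Prime → N < l → LiftOK k l b := by
    intro l hl hlt
    refine liftOK_of_roots fun v hv x hx => ?_
    obtain ⟨g, hg⟩ := isConj_iff.1 (hsupp v hv)
    have h2 : (g⁻¹ * x * g) ^ l = c ^ l := by
      have h3 := conj_pow (i := l) (a := g⁻¹) (b := x)
      rw [inv_inv] at h3
      rw [h3, hx, ← hg, conj_pow]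
      group
    have h4 := hN l hl hlt _ h2
    rw [← hg, ← h4]
    group
  refine pairing_zero2 (R := ℤ) (P := {l : ℕ | l.Prime ∧ N < l}) (a := k)
    (D := -(2 * (GG k 0 * b c []))) ?_ ?_ ?_ (fun l hl => hl.1) (fun l hl x hx => hN l hl.1 hl.2 x hx)
    ?_ ?_ hk (neg_ne_zero.2 hZ) ?_ hAB hBA (mixPoly_isPoly hb hk c)
  · intro x hx
    refine ⟨x.natAbs, fun l _ hlt hdvd => ?_⟩
    have := zeroMix_div x hx l hdvd
    omega
  · intro m hm h
    set M := (2 * (GG k 0 * b c []) : ℤ).natAbs with hM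
    have h2 := nil_dvd hb hk c (1 + m * M) (by omega)
    have h3 : c ^ (1 + m * M) = c := by rw [pow_add, pow_mul, h, one_pow, pow_one, mul_one]
    rw [h3] at h2
    have h4 := zeroMix_div _ hZ _ h2
    have h5 : M ≤ m * M := Nat.le_mul_of_pos_left M hm
    omega
  · refine Set.infinite_of_not_bddAbove ?_
    rintro ⟨M, hM⟩
    obtain ⟨l, hl, hlp⟩ := Nat.exists_infinite_primes (max M N + 1)
    have h2 := hM (a := l) ⟨hlp, by omega⟩
    omega
  · intro u
    by_cases hne : ∃ l0 : ℕ, (l0.Prime ∧ N < l0) ∧ IsConj u (c ^ l0)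
    · obtain ⟨l0, hl0, hul⟩ := hne
      have hL := hLift l0 hl0.1 hl0.2
      have hb2 : IsMixed k (lift k l0 b) := liftL_mixed hl0.1.pos hL hb
      have hZ2 : (2 * (GG k 0 * lift k l0 b (c ^ l0) []) : ℤ) ≠ 0 := by
        rw [hL c []]
        refine mul_ne_zero two_ne_zero (mul_ne_zero (zeroMix_GG k 0) (mul_ne_zero ?_ hc))
        exact pow_ne_zero _ (by exact_mod_cast hl0.1.ne_zero)
      refine (Set.finite_Iic (2 * (GG k 0 * lift k l0 b (c ^ l0) []) : ℤ).natAbs).subset ?_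
      rintro l ⟨hl, hlu⟩
      have h2 := nil_dvd hb2 hk c l hl.1.pos
      rw [zeroMix_conj hb2 (hlu.symm.trans hul)] at h2
      exact zeroMix_div _ hZ2 _ h2
    · push Not at hne
      convert Set.finite_empty
      ext l
      simp only [Set.mem_ofPred_eq, Set.mem_empty_iff_false, iff_false, not_and]
      exact fun hl => hne l hl
  · refine ⟨(2 * (GG k 0 * b c []) : ℤ).natAbs, fun l hl hlt x hx => ?_⟩
    have h2 := nil_dvd hb hk x l hl.1.pos
    rw [hx] at h2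
    have := zeroMix_div _ hZ _ h2
    omega
  · refine ⟨0, fun l hl _ => ⟨mixPoly k (lift k l b), ?_⟩⟩
    have hL := hLift l hl.1 hl.2
    have h2 := mixPoly_isPoly (liftL_mixed hl.1.pos hL hb) hk (c ^ l)
    rw [hL c []] at h2
    convert h2 using 1
    rw [List.length_nil, Nat.zero_div, Nat.sub_zero]
    ring

theorem polyZero_of_mixDet.{v, u} {Γ : Type u} [Group Γ] {c : Γ} (h1 : RootU c) (h2 : MixDet c)
    {p : ℕ} (hp : p.Prime) : PolyZero.{v} p c := by
  obtain ⟨k, b, hb, hc⟩ := h2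
  have hb' : IsMixed k (clsR c b) := final_cls hb c
  have hc' : clsR c b c [] ≠ 0 := by
    unfold clsR
    rw [if_pos (IsConj.refl c)]
    exact hc
  have hk := zeroMix_pos hb' hc'
  have hsupp : ∀ v : Γ, (∃ u, clsR c b v u ≠ 0) → IsConj c v := by
    rintro v ⟨u, hu⟩
    by_contra h
    apply hu
    unfold clsR
    rw [if_neg h]
  have hi : Function.Injective (ULift.ringEquiv.{0, v} (R := ℤ)).symm :=
    (ULift.ringEquiv.{0, v} (R := ℤ)).symm.injective
  refine ⟨ULift.{v} ℤ, inferInstance, (ULift.ringEquiv.{0, v} (R := ℤ)).toMulEquiv.isDomain ℤ,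
    charZero_of_injective_ringHom (f := (ULift.ringEquiv.{0, v} (R := ℤ)).symm.toRingHom) hi,
    isNoetherianRing_of_ringEquiv ℤ (ULift.ringEquiv.{0, v} (R := ℤ)).symm, k,
    fun g x => (ULift.ringEquiv.{0, v} (R := ℤ)).symm.toRingHom (mixPoly k (clsR c b) g x),
    (ULift.ringEquiv.{0, v} (R := ℤ)).symm.toRingHom (-(2 * (GG k 0 * clsR c b c []))), ?_, ?_,
    IsPoly.map _ (mixPoly_isPoly hb' hk c), ?_⟩
  · intro h
    have h3 := h.map (ULift.ringEquiv.{0, v} (R := ℤ)).toRingHom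
    rw [map_natCast] at h3
    exact Int.isUnit_iff.mp h3 |>.elim (fun h => by
      have := hp.one_lt
      omega) (fun h => by omega)
  · intro h
    have h3 := hi (h.trans (map_zero _).symm)
    have hZ : (2 * (GG k 0 * clsR c b c []) : ℤ) ≠ 0 :=
      mul_ne_zero two_ne_zero (mul_ne_zero (zeroMix_GG k 0) hc')
    omega
  · intro n A' B' hAB hBA
    rw [mbil_chg, zeroMix_main h1 hb' hc' hsupp hAB hBA, map_zero]

end ZeroMix

end Pool.Agent.Lib.MP_8f66f0_al_Nil
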