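import Mathlib
import Pool.Agent.Lib.MP_8f66f0_al_Nil.Level1
import Pool.Agent.Lib.MP_8f66f0_al_Nil.ZeroMix
import Pool.Agent.Lib.MP_8f66f0_al_Uni.Arith
import Pool.Agent.Lib.MP_8f66f0_al_Uni.LinData
import Pool.Agent.Lib.MP_8f66f0_al_Uni.Rings
import Pool.Agent.Lib.MP_8f66f0_al_Wreath.CommRingT

namespace Pool.Agent.Lib.MP_8f66f0_al_Wall
end Pool.Agent.Lib.MP_8f66f0_al_Wall

/-! # ZeroRep


PROOF. As `tauGood_of_rep` in Uni/Final.lean. If some eigenvalue of `ρ c` is not a root of unity, `c` is detected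
(`detected_of_hom`), use `mixDet_of_detected` and `polyZero_of_mixDet`. Otherwise `δ`, `J`, `D`, `R'` as there, and
`pairing_zero2` instead of `pairing_zero`, `P` = all primes larger than the `N` of `RootU c`; `hconj`: the
image `N = ρ.range` is a finitely generated linear group over a commutative ring, so `PowerSep`
(`powerSep_of_commRing_torsion` in Wreath/CommRingT.lean; or for the ring `R'`), and if `u` is conjugate to `c^l` then
`ρ u` is conjugate to `(ρ c)^l`: finitely many `l`. -/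

set_option autoImplicit false
set_option linter.unusedSectionVars false
set_option linter.unusedVariables false
set_option maxSynthPendingDepth 3

namespace Pool.Agent.Lib.MP_8f66f0_al_Nil

open Pool.Agent.Lib.MP_8f66f0_al_Plus Pool.Agent.Lib.MP_8f66f0_al_Wall
open Pool.Agent.Lib.MP_8f66f0_al_FinQ Pool.Agent.Lib.MP_8f66f0_al_Uni
  Pool.Agent.Lib.MP_8f66f0_al_ChernS Pool.Agent.Lib.MP_8f66f0_al_Mixed
  Pool.Agent.Lib.MP_8f66f0_al_Wreath


section ZeroRep

theorem polyZero_of_rep.{v, u} {Γ : Type u} [Group Γ] [Group.FG Γ] {p : ℕ} (hp : p.Prime)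
    {R : Type v} [CommRing R] [IsDomain R] [CharZero R] (hpR : ¬ IsUnit (p : R)) {m : ℕ}
    (ρ : Γ →* Matrix.GeneralLinearGroup (Fin m) R) {c : Γ} (hc : ∀ n : ℕ, 0 < n → ρ c ^ n ≠ 1)
    (h1 : RootU c) : PolyZero.{v} p c := by
  classical
  -- the image
  set N := ρ.range with hNdef
  set φ : Γ →* N := ρ.rangeRestrict with hφ
  have hFG : Group.FG N := Group.fg_range ρ
  have hsepN : PowerSep N :=
    T.powerSep_of_commRing_torsion N.subtype (Subgroup.subtype_injective N)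
  obtain ⟨R', ρ', hft, hinj, hpR'⟩ := exists_fg_domain hpR N.subtype (Subgroup.subtype_injective N)
  have hnoeth : IsNoetherianRing R' := Algebra.FiniteType.isNoetherianRing ℤ R'
  have hchar : CharZero R' := inferInstance
  set c' : N := φ c with hc'
  have hc1 : ∀ n : ℕ, 0 < n → c' ^ n ≠ 1 := by
    intro n hn h
    apply hc n hn
    have := congrArg Subtype.val h
    rwa [Subgroup.coe_pow, Subgroup.coe_one] at this
  have hcinf : ∀ n : ℕ, 0 < n → c ^ n ≠ 1 := by
    intro n hn h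
    apply hc n hn
    rw [← map_pow, h, map_one]
  set K := FractionRing R'
  set Ω := AlgebraicClosure K
  have hinjΩ : Function.Injective (algebraMap R' Ω) := by
    rw [IsScalarTower.algebraMap_eq R' K Ω]
    exact (algebraMap K Ω).injective.comp (IsFractionRing.injective R' K)
  set σ : Γ →* Matrix.GeneralLinearGroup (Fin m) Ω :=
    ((Matrix.GeneralLinearGroup.map (algebraMap R' Ω)).comp ρ').comp φ with hσ
  by_cases heig : ∃ μ, (σ c : Matrix (Fin m) (Fin m) Ω).charpoly.IsRoot μ ∧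
      ∀ N : ℕ, 0 < N → μ ^ N ≠ 1
  · obtain ⟨μ, hμ, hμ'⟩ := heig
    obtain ⟨lam, hlam⟩ := exists_lam_of_not_root σ c hμ hμ'
    exact polyZero_of_mixDet h1 (mixDet_of_detected (detected_of_hom lam hlam)) hp
  push Not at heig
  obtain ⟨M, hM, hM1⟩ := exists_pow_unipotent (σ c : Matrix (Fin m) (Fin m) Ω) heig
  have hu : ((ρ' (c' ^ M) : Matrix (Fin m) (Fin m) R') - 1) ^ m = 0 := by
    have h1 : (σ c : Matrix (Fin m) (Fin m) Ω) =
        (algebraMap R' Ω).mapMatrix (ρ' c' : Matrix (Fin m) (Fin m) R') := rfl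
    rw [h1, ← map_pow, ← map_one (algebraMap R' Ω).mapMatrix, ← map_sub, ← map_pow] at hM1
    rw [map_pow, Units.val_pow_eq_pow_val]
    ext i j
    have h2 := congrFun (congrFun hM1 i) j
    rw [RingHom.mapMatrix_apply, Matrix.map_apply, Matrix.zero_apply] at h2
    have h3 := hinjΩ (h2.trans (map_zero _).symm)
    rw [h3]
    rfl
  have hne : (ρ' (c' ^ M) : Matrix (Fin m) (Fin m) R') ≠ 1 := by
    intro h
    apply hc1 M hM
    apply hinj
    rw [map_one]
    exact Units.ext h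
  have hU : HasUData R' K c' := hasUData_of_quasiunipotent ρ' hM hu hne
  obtain ⟨J, a, D, ha, hD, hfam⟩ := exists_poly_family hU
  -- pull back of the cocycles
  have hcomm : ∀ g, pr N (FreeGroup.map φ g) = φ (pr Γ g) := by
    intro g
    have h1 : (pr N).comp (FreeGroup.map φ) = φ.comp (pr Γ) := by
      refine FreeGroup.ext_hom _ _ fun a => ?_
      rw [MonoidHom.comp_apply, MonoidHom.comp_apply, FreeGroup.map.of, pr_of, pr_of]
    exact DFunLike.congr_fun h1 g
  have hpull : ∀ k : ℕ, 0 < k → (∀ g : N, Commute g (c' ^ k) → Commute g c') →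
      ∃ δ : FreeGroup Γ → FreeGroup Γ → R', IsPoly (pr Γ) (c ^ k) J δ ((k : R') ^ a * D) := by
    intro k hk hcent
    obtain ⟨δ, hδ⟩ := hfam k hk hcent
    rw [hc', ← map_pow] at hδ
    exact ⟨_, hδ.pullback (FreeGroup.map φ) φ hcomm⟩
  obtain ⟨δ, hδ⟩ := hpull 1 one_pos (by intro g hg; rwa [pow_one] at hg)
  rw [pow_one, Nat.cast_one, one_pow, one_mul] at hδ
  obtain ⟨N0, hN0⟩ := h1
  refine ⟨R', inferInstance, inferInstance, hchar, hnoeth, J, δ, D, hpR', hD, hδ, ?_⟩
  intro n A' B' hAB' hBA'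
  refine pairing_zero2 (P := {l : ℕ | l.Prime ∧ N0 < l}) (fun x hx => exists_not_dvd x hx) hcinf
    ?_ (fun l hl => hl.1) (fun l hl x hx => hN0 l hl.1 hl.2 x hx) ?_ ?_ ha hD ?_ hAB' hBA' hδ
  · refine Set.infinite_of_not_bddAbove ?_
    rintro ⟨M, hM⟩
    obtain ⟨l, hl, hlp⟩ := Nat.exists_infinite_primes (max M N0 + 1)
    have h2 := hM (a := l) ⟨hlp, by omega⟩
    omega
  · intro u
    refine (hsepN.2 (φ u) c' hc1).subset ?_
    rintro l ⟨hl, hlu⟩
    refine ⟨hl.1, ?_⟩
    rw [hc', ← map_pow]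
    exact φ.map_isConj hlu
  · obtain ⟨N₀, hN₀⟩ := exists_not_pow ρ' hM hu hne
    refine ⟨N₀, fun l hl hlt x hx => hN₀ l hl.1 hlt (φ x) ?_⟩
    rw [← map_pow, hx]
  · obtain ⟨N₀, hN₀⟩ := hsepN.1
    refine ⟨N₀, fun l hl hlt => hpull l hl.1.pos fun g hg => ?_⟩
    have h1 : (g * c' * g⁻¹) ^ l = c' ^ l := by
      rw [conj_pow, hg.eq, mul_inv_cancel_right]
    have h2 := hN₀ l hl.1 hlt _ _ h1
    exact mul_inv_eq_iff_eq_mul.mp h2

theorem polyZero_of_nDet.{v, u} {Γ : Type u} [Group Γ] [Group.FG Γ] {p : ℕ} (hp : p.Prime)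
    {c : Γ} (h1 : RootU c) (h2 : NDet.{v} p c) : PolyZero.{v} p c := by
  rcases h2 with h | h | ⟨R, _, _, _, m, ρ, hpR, hord⟩
  · exact polyZero_of_mixDet h1 h hp
  · exact polyZero_of_mixDet h1 (mixDet_of_detected h) hp
  · exact polyZero_of_rep hp hpR ρ hord h1

end ZeroRep

end Pool.Agent.Lib.MP_8f66f0_al_Nil
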