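import Mathlib
import Pool.Agent.Lib.MP_8f66f0_al_Nil.ClosureM
import Pool.Agent.Lib.MP_8f66f0_al_Nil.ClosureR
import Pool.Agent.Lib.MP_8f66f0_al_Nil.MultB
import Pool.Agent.Lib.MP_8f66f0_al_Nil.ZeroRep
import Pool.Agent.Lib.MP_8f66f0_al_Wreath.DetClass

/-! # The class `NilClass`. -/

set_option autoImplicit false
set_option linter.unusedSectionVars false
set_option linter.unusedVariables false

namespace Pool.Agent.Lib.MP_8f66f0_al_Nil

open Pool.Agent.Lib.MP_8f66f0_al_Plus Pool.Agent.Lib.MP_8f66f0_al_Wall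
open Pool.Agent.Lib.MP_8f66f0_al_FinQ Pool.Agent.Lib.MP_8f66f0_al_Uni
  Pool.Agent.Lib.MP_8f66f0_al_ChernS Pool.Agent.Lib.MP_8f66f0_al_Mixed
open Pool.Agent.Lib.MP_8f66f0_al_Wreath hiding Good1 AEGood

section pull

lemma NDet.comap.{v, u} {G K : Type u} [Group G] [Group K] (φ : K →* G) {p : ℕ} {c : K}
    (h : NDet.{v} p (φ c)) : NDet.{v} p c := by
  rcases h with h | h
  · exact Or.inl (MixDet.comap φ h)
  · exact Or.inr (PDet.comap φ h)

lemma Good2.comap.{v, u} {G K : Type u} [Group G] [Group K] {φ : K →* G}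
    (hφ : Function.Injective φ) (h : Good2.{v} G) : Good2.{v} K := by
  obtain ⟨h1, N, hN⟩ := h
  exact ⟨fun c => RootU.comap hφ (h1 _), N, fun p hp hlt c hc =>
    NDet.comap φ (hN p hp hlt (φ c) (pow_ne_one_of_injective hφ hc))⟩

/-- All finitely generated subgroups satisfy `Good2`. -/
def AEGood2.{v, u} (G : Type u) [Group G] : Prop := ∀ H : Subgroup G, H.FG → Good2.{v} H

/-- For groups `H` with an injective homomorphism to `G`. -/
lemma AEGood2.good2.{v, u} {G K : Type u} [Group G] [Group K] [Group.FG K] (h : AEGood2.{v} G)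
    {φ : K →* G} (hφ : Function.Injective φ) : Good2.{v} K := by
  have h1 : Good2.{v} φ.range := h φ.range ((Group.fg_iff_subgroup_fg _).mp (Group.fg_range φ))
  refine Good2.comap (φ := φ.rangeRestrict) ?_ h1
  intro x y hxy
  exact hφ (congrArg Subtype.val hxy)

lemma AEGood2.self.{v, u} {G : Type u} [Group G] [Group.FG G] (h : AEGood2.{v} G) : Good2.{v} G :=
  h.good2 (φ := MonoidHom.id G) Function.injective_id

lemma Good2.of_good1.{v, u} {G : Type u} [Group G]
    (h : Pool.Agent.Lib.MP_8f66f0_al_Wreath.Good1.{v} G) : Good2.{v} G := by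
  obtain ⟨⟨⟨N, hN⟩, -⟩, M, hM⟩ := h
  exact ⟨fun c => ⟨N, fun l hl hlt x hx => hN l hl hlt _ _ hx⟩, M, fun p hp hlt c hc =>
    Or.inr (hM p hp hlt c hc)⟩

lemma AEGood2.of_aeGood.{v, u} {G : Type u} [Group G]
    (h : Pool.Agent.Lib.MP_8f66f0_al_Wreath.AEGood.{v} G) : AEGood2.{v} G :=
  fun H hH => Good2.of_good1 (h H hH)

end pull

section closure

lemma aeGood2_of_good.{v, u} {G : Type u} [Group G] (hG : ∀ c : G, RootU c) (N : ℕ)
    (hd : ∀ p : ℕ, p.Prime → N < p → ∀ c : G, (∀ n : ℕ, 0 < n → c ^ n ≠ 1) →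
      MixDet c ∨ LinDet.{v} p c) : AEGood2.{v} G := by
  intro H _
  refine ⟨fun c => RootU.comap (Subgroup.subtype_injective H) (hG _), N, fun p hp hlt c hc => ?_⟩
  rcases hd p hp hlt _ (pow_ne_one_of_injective (Subgroup.subtype_injective H) hc) with h | h
  · exact Or.inl (MixDet.comap H.subtype h)
  · exact Or.inr (PDet.comap H.subtype (Or.inr h))

lemma AEGood2.sub.{v, u} {G K : Type u} [Group G] [Group K] {φ : K →* G}
    (hφ : Function.Injective φ) (hG : AEGood2.{v} G) : AEGood2.{v} K := by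
  intro H hH
  have : Group.FG H := (Group.fg_iff_subgroup_fg H).mpr hH
  exact hG.good2 (φ := φ.comp H.subtype) (hφ.comp (Subgroup.subtype_injective H))

lemma AEGood2.loc.{v, u} {G : Type u} [Group G]
    (h : ∀ H : Subgroup G, H.FG → AEGood2.{v} H) : AEGood2.{v} G := by
  intro H hH
  have : Group.FG H := (Group.fg_iff_subgroup_fg H).mpr hH
  exact (h H hH).self

/-- Two jointly injective homomorphisms. -/
lemma Good2.pair.{v, u} {Γ A B : Type u} [Group Γ] [Group A] [Group B] (f : Γ →* A) (g : Γ →* B)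
    (hinj : ∀ x, f x = 1 → g x = 1 → x = 1) (hA : Good2.{v} A) (hB : Good2.{v} B) :
    Good2.{v} Γ := by
  obtain ⟨hcA, MA, hMA⟩ := hA
  obtain ⟨hcB, MB, hMB⟩ := hB
  have hinf : ∀ c : Γ, (∀ n : ℕ, 0 < n → c ^ n ≠ 1) →
      (∀ n : ℕ, 0 < n → f c ^ n ≠ 1) ∨ (∀ n : ℕ, 0 < n → g c ^ n ≠ 1) := by
    intro c hc
    by_contra hcon
    push Not at hcon
    obtain ⟨⟨a, ha, ha1⟩, b, hb, hb1⟩ := hcon
    refine hc (a * b) (Nat.mul_pos ha hb) (hinj _ ?_ ?_)
    · rw [map_pow, pow_mul, ha1, one_pow]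
    · rw [map_pow, mul_comm, pow_mul, hb1, one_pow]
  refine ⟨fun c => ?_, MA + MB, fun p hp hlt c hc => ?_⟩
  · obtain ⟨NA, hNA⟩ := hcA (f c)
    obtain ⟨NB, hNB⟩ := hcB (g c)
    refine ⟨NA + NB, fun l hl hlt x hx => ?_⟩
    have h1 : f x = f c := hNA l hl (by omega) _ (by rw [← map_pow, ← map_pow, hx])
    have h2 : g x = g c := hNB l hl (by omega) _ (by rw [← map_pow, ← map_pow, hx])
    rw [← mul_inv_eq_one]
    apply hinj
    · rw [map_mul, map_inv, h1, mul_inv_cancel]
    · rw [map_mul, map_inv, h2, mul_inv_cancel]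
  · rcases hinf c hc with h | h
    · exact NDet.comap f (hMA p hp (by omega) _ h)
    · exact NDet.comap g (hMB p hp (by omega) _ h)

lemma AEGood2.prod.{v, u} {G K : Type u} [Group G] [Group K] (hG : AEGood2.{v} G)
    (hK : AEGood2.{v} K) : AEGood2.{v} (G × K) := by
  intro H hH
  have : Group.FG H := (Group.fg_iff_subgroup_fg H).mpr hH
  set f : H →* G := (MonoidHom.fst G K).comp H.subtype with hf
  set g : H →* K := (MonoidHom.snd G K).comp H.subtype with hg
  have h1 : Good2.{v} f.range := hG _ ((Group.fg_iff_subgroup_fg _).mp (Group.fg_range f))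
  have h2 : Good2.{v} g.range := hK _ ((Group.fg_iff_subgroup_fg _).mp (Group.fg_range g))
  refine Good2.pair f.rangeRestrict g.rangeRestrict (fun x hx hx' => ?_) h1 h2
  apply Subtype.ext
  exact Prod.ext (congrArg Subtype.val hx) (congrArg Subtype.val hx')

end closure

section wreath

/-- `NDet` in the wreath product. -/
lemma nDet_rwp.{v, u} {Γ : Type u} [Group Γ] {C : Type*} [Group C] [Fintype C]
    {p : ℕ} (hdet : ∀ c : Γ, (∀ n : ℕ, 0 < n → c ^ n ≠ 1) → NDet.{v} p c)
    (h : RegularWreathProduct Γ C) (hh : ∀ k : ℕ, 0 < k → h ^ k ≠ 1) : NDet.{v} p h := by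
  have hex : ∃ x, ∀ n : ℕ, 0 < n → ((h ^ Fintype.card C).left x) ^ n ≠ 1 := by
    by_contra hcon
    push Not at hcon
    choose n hn h1 using hcon
    refine hh (Fintype.card C * ∏ x, n x)
      (Nat.mul_pos Fintype.card_pos (Finset.prod_pos fun x _ => hn x)) ?_
    rw [pow_mul]
    refine RegularWreathProduct.ext ?_ ?_
    · funext x
      rw [rwp_pow_left_of_right (rwp_pow_card_right h), Pi.pow_apply]
      obtain ⟨d, hd⟩ := Finset.dvd_prod_of_mem n (Finset.mem_univ x)
      rw [hd, pow_mul, h1, one_pow]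
      rfl
    · rw [rwp_pow_right, rwp_pow_card_right, one_pow]
      rfl
  obtain ⟨x, hx⟩ := hex
  rcases hdet _ hx with h1 | ⟨δ, hδ, h0⟩ | ⟨R, i1, i2, i3, m, ρ, hp, hinf⟩
  · exact Or.inl (mixDet_rwp h1)
  · exact Or.inr (Or.inl (detected_rwp hδ h0 rfl))
  · exact Or.inr (Or.inr ⟨R, i1, i2, i3, _, rwpRep ρ, hp, rwpRep_pow_ne_one hinf⟩)

lemma Good2.virt.{v, u} {H : Type u} [Group H] (N : Subgroup H) [N.Normal] [N.FiniteIndex]
    (h : Good2.{v} N) : Good2.{v} H := by
  classical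
  obtain ⟨h1, M, hM⟩ := h
  have hfin : Finite (H ⧸ N) := Subgroup.finite_quotient_of_finiteIndex
  have := Fintype.ofFinite (H ⧸ N)
  exact ⟨rootU_of_normal N h1, M, fun p hp hlt c hc =>
    NDet.comap (kk N) (nDet_rwp (hM p hp hlt) _ (pow_ne_one_of_injective (kk_injective N) hc))⟩

lemma AEGood2.virt.{v, u} {G : Type u} [Group G] (K : Subgroup G) [K.FiniteIndex]
    (h : AEGood2.{v} K) : AEGood2.{v} G := by
  intro H hH
  have hHfg : Group.FG H := (Group.fg_iff_subgroup_fg H).mpr hH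
  set N : Subgroup H := (K.subgroupOf H).normalCore with hN
  have hNfi : N.FiniteIndex := inferInstance
  have hNfg : Group.FG N := inferInstance
  have hle : ∀ x : N, ((x : H) : G) ∈ K := fun x =>
    Subgroup.mem_subgroupOf.mp (Subgroup.normalCore_le (K.subgroupOf H) x.2)
  let φ : N →* K := (H.subtype.comp N.subtype).codRestrict K hle
  have hφ : Function.Injective φ := by
    intro x y hxy
    apply Subtype.ext
    apply Subtype.ext
    exact congrArg (fun z : K => (z : G)) hxy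
  exact Good2.virt N (h.good2 hφ)

/-- The wreath product of a group with `Good2` and a finite group: all elements of infinite order
have a polynomial class cocycle. -/
lemma Good2.polyZero_rwp.{v, u} {Γ : Type u} [Group Γ] [Group.FG Γ] (h : Good2.{v} Γ) {p : ℕ}
    (hp : p.Prime) (hdet : ∀ c : Γ, (∀ n : ℕ, 0 < n → c ^ n ≠ 1) → NDet.{v} p c)
    {C : Type} [Group C] [Fintype C] (w : RegularWreathProduct Γ C)
    (hw : ∀ k : ℕ, 0 < k → w ^ k ≠ 1) : PolyZero.{v} p w := by
  have : Group.FG (RegularWreathProduct Γ C) := fg_wreath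
  exact polyZero_of_nDet hp (rootU_rwp h.1 w) (nDet_rwp hdet w hw)

end wreath

theorem NilClass.aeGood.{v, u} {G : Type u} [Group G] (h : NilClass.{v} G) : AEGood2.{v} G := by
  induction h with
  | lin G R m ρ hρ => exact AEGood2.of_aeGood (aeGood_of_lin ρ hρ)
  | hol F hF => exact AEGood2.of_aeGood (aeGood_of_autClass
      (Pool.Agent.Lib.MP_8f66f0_al_Aut.AutClass.hol F hF))
  | out ι => exact AEGood2.of_aeGood (aeGood_of_autClass
      (Pool.Agent.Lib.MP_8f66f0_al_Aut.AutClass.out ι))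
  | good G hG N hd => exact aeGood2_of_good hG N hd
  | sub G K φ hφ _ ih => exact AEGood2.sub hφ ih
  | prod G K _ _ hG hK => exact AEGood2.prod hG hK
  | virt G K _ ih => exact AEGood2.virt K ih
  | loc G _ ih => exact AEGood2.loc ih

/-- The class contains `DetClass`. -/
theorem NilClass.of_detClass.{v, u} {G : Type u} [Group G]
    (h : DetClass.{v} G) : NilClass.{v} G := by
  induction h with
  | lin G R m ρ hρ => exact NilClass.lin G R m ρ hρ
  | hol F hF => exact NilClass.hol F hF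
  | out ι => exact NilClass.out ι
  | good G hG N hd =>
    refine NilClass.good G (fun c => ?_) N (fun p hp hlt c hc => ?_)
    · obtain ⟨⟨M, hM⟩, -⟩ := hG
      exact ⟨M, fun l hl hlt x hx => hM l hl hlt _ _ hx⟩
    · rcases hd p hp hlt c hc with h | h
      · exact Or.inl (mixDet_of_detected h)
      · exact Or.inr h
  | sub G K φ hφ _ ih => exact NilClass.sub G K φ hφ ih
  | prod G K _ _ hG hK => exact NilClass.prod G K hG hK
  | virt G K _ ih => exact NilClass.virt G K ih
  | loc G _ ih => exact NilClass.loc G ih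

/-- Finitely generated torsion-free groups. -/
theorem goodQ_of_good2.{v, u} {H : Type u} [Group H] [Group.FG H]
    (htf : ∀ g : H, ∀ n : ℕ, 0 < n → g ^ n = 1 → g = 1) (h : Good2.{v} H) : GoodQ H := by
  intro n A B hAB hBA N _ _
  refine rootHyp2.{v, u} htf (fun m hm => ?_) hAB hBA N
  obtain ⟨h1, M, hM⟩ := h
  obtain ⟨p, hp, hlt, hmod⟩ := Nat.exists_prime_gt_modEq_one M hm.ne'
  refine ⟨p, hp, hmod, fun M' _ c hc => ?_⟩
  have : Fact p.Prime := ⟨hp⟩
  have hfg : Group.FG M' := inferInstance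
  have hG : Good2.{v} M' := Good2.comap (Subgroup.subtype_injective M') ⟨h1, M, hM⟩
  exact hG.polyZero_rwp hp (fun c hc => NDet.comap M'.subtype
    (hM p hp hlt _ (pow_ne_one_of_injective (Subgroup.subtype_injective M') hc))) c hc

/-- Torsion-free groups in the class. -/
theorem goodQ_of_nilClass.{v, u} {Γ : Type u} [Group Γ]
    (htf : ∀ g : Γ, ∀ n : ℕ, 0 < n → g ^ n = 1 → g = 1) (h : NilClass.{v} Γ)
    (H : Subgroup Γ) (hH : H.FG) : GoodQ H := by
  have : Group.FG H := (Group.fg_iff_subgroup_fg H).mpr hH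
  have htfH : ∀ g : H, ∀ n : ℕ, 0 < n → g ^ n = 1 → g = 1 := by
    intro g n hn hg
    apply Subtype.ext
    exact htf g n hn (congrArg Subtype.val hg)
  exact goodQ_of_good2 htfH (h.aeGood H hH)

end Pool.Agent.Lib.MP_8f66f0_al_Nil
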